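import Pool.Agent.W76.MO.Stmts

/-!
# Completely multiplicative functions given by their values at the primes
-/

set_option autoImplicit false

namespace Pool.Agent.Y946.CM

open Finset
open scoped Classical

/-- the completely multiplicative function with the values `a p` at the primes -/
noncomputable def cm (a : ℕ → ℝ) (n : ℕ) : ℝ := (n.primeFactorsList.map a).prod

lemma cm_one (a : ℕ → ℝ) : cm a 1 = 1 := by simp [cm]

lemma cm_zero (a : ℕ → ℝ) : cm a 0 = 1 := by simp [cm]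

lemma cm_prime (a : ℕ → ℝ) {p : ℕ} (hp : p.Prime) : cm a p = a p := by
  simp [cm, Nat.primeFactorsList_prime hp]

lemma cm_mul (a : ℕ → ℝ) {m n : ℕ} (hm : m ≠ 0) (hn : n ≠ 0) :
    cm a (m * n) = cm a m * cm a n := by
  unfold cm
  rw [((Nat.perm_primeFactorsList_mul hm hn).map a).prod_eq, List.map_append, List.prod_append]

/-- induction on the number of prime factors -/
lemma ind {P : ℕ → Prop} (h1 : P 1) (hp : ∀ p n : ℕ, p.Prime → n ≠ 0 → P n → P (p * n))
    {n : ℕ} (hn : n ≠ 0) : P n := by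
  induction n using induction_on_primes with
  | zero => exact absurd rfl hn
  | one => exact h1
  | prime_mul p a hpp ih =>
    have ha : a ≠ 0 := by rintro rfl; simp at hn
    exact hp p a hpp ha (ih ha)

lemma cm_prime_mul (a : ℕ → ℝ) {p n : ℕ} (hp : p.Prime) (hn : n ≠ 0) :
    cm a (p * n) = a p * cm a n := by
  rw [cm_mul a hp.ne_zero hn, cm_prime a hp]

lemma cm_nonneg {a : ℕ → ℝ} (ha : ∀ p, p.Prime → 0 ≤ a p) (n : ℕ) : 0 ≤ cm a n := by
  unfold cm
  apply List.prod_nonneg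
  intro x hx
  rw [List.mem_map] at hx
  obtain ⟨p, hp, rfl⟩ := hx
  exact ha p (Nat.prime_of_mem_primeFactorsList hp)

/-- comparison, only the primes which divide `n` matter -/
lemma cm_le' {a b : ℕ → ℝ} {n : ℕ} (hn : n ≠ 0)
    (h : ∀ p : ℕ, p.Prime → p ∣ n → 0 ≤ a p ∧ a p ≤ b p) : 0 ≤ cm a n ∧ cm a n ≤ cm b n := by
  revert h
  refine ind (P := fun n => (∀ p : ℕ, p.Prime → p ∣ n → 0 ≤ a p ∧ a p ≤ b p) →
    0 ≤ cm a n ∧ cm a n ≤ cm b n) ?_ ?_ hn
  · intro _
    rw [cm_one, cm_one]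
    exact ⟨zero_le_one, le_rfl⟩
  · intro p m hp hm ih h
    obtain ⟨h1, h2⟩ := ih (fun q hq hd => h q hq (hd.mul_left p))
    obtain ⟨h3, h4⟩ := h p hp (Dvd.intro m rfl)
    rw [cm_prime_mul a hp hm, cm_prime_mul b hp hm]
    exact ⟨mul_nonneg h3 h1, mul_le_mul h4 h2 h1 (h3.trans h4)⟩

lemma cm_le {a b : ℕ → ℝ} (h : ∀ p : ℕ, p.Prime → 0 ≤ a p ∧ a p ≤ b p) (n : ℕ) :
    cm a n ≤ cm b n := by
  rcases Nat.eq_zero_or_pos n with h0 | h0
  · rw [h0, cm_zero, cm_zero]
  · exact (cm_le' h0.ne' fun p hp _ => h p hp).2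

lemma cm_congr {a b : ℕ → ℝ} {n : ℕ} (hn : n ≠ 0) (h : ∀ p : ℕ, p.Prime → p ∣ n → a p = b p) :
    cm a n = cm b n := by
  unfold cm
  congr 1
  apply List.map_congr_left
  intro p hp
  exact h p (Nat.prime_of_mem_primeFactorsList hp) (Nat.dvd_of_mem_primeFactorsList hp)

lemma cm_const_one (n : ℕ) : cm (fun _ => 1) n = 1 := by
  unfold cm
  simp

lemma cm_eq_one {a : ℕ → ℝ} {n : ℕ} (hn : n ≠ 0) (h : ∀ p : ℕ, p.Prime → p ∣ n → a p = 1) :
    cm a n = 1 := by
  rw [cm_congr hn h, cm_const_one]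

lemma cm_mul_fun (a b : ℕ → ℝ) (n : ℕ) : cm (fun p => a p * b p) n = cm a n * cm b n := by
  unfold cm
  exact List.prod_map_mul

lemma cm_rpow (θ : ℝ) {n : ℕ} (hn : n ≠ 0) : cm (fun p => (p : ℝ) ^ θ) n = (n : ℝ) ^ θ := by
  refine ind (P := fun n => cm (fun p => (p : ℝ) ^ θ) n = (n : ℝ) ^ θ) ?_ ?_ hn
  · rw [cm_one]; simp
  · intro p m hp hm ih
    rw [cm_prime_mul _ hp hm, ih]
    push_cast
    rw [Real.mul_rpow (Nat.cast_nonneg p) (Nat.cast_nonneg m)]

lemma cm_inv {n : ℕ} (hn : n ≠ 0) : cm (fun p => 1 / (p : ℝ)) n = 1 / (n : ℝ) := by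
  refine ind (P := fun n => cm (fun p => 1 / (p : ℝ)) n = 1 / (n : ℝ)) ?_ ?_ hn
  · rw [cm_one]; simp
  · intro p m hp hm ih
    rw [cm_prime_mul _ hp hm, ih]
    push_cast
    ring

/-- `∏ (1/p + c p) = (1/n) ∏ (1 + p c p)` -/
lemma cm_scale (c : ℕ → ℝ) {n : ℕ} (hn : n ≠ 0) :
    cm (fun p => 1 / (p : ℝ) + c p) n = (1 / (n : ℝ)) * cm (fun p => 1 + p * c p) n := by
  rw [← cm_inv hn, ← cm_mul_fun]
  apply cm_congr hn
  intro p hp _
  have : (p : ℝ) ≠ 0 := by exact_mod_cast hp.ne_zero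
  field_simp

lemma cm_le_rpow {a : ℕ → ℝ} {θ : ℝ} {n : ℕ} (hn : n ≠ 0)
    (h : ∀ p : ℕ, p.Prime → p ∣ n → 0 ≤ a p ∧ a p ≤ (p : ℝ) ^ θ) : cm a n ≤ (n : ℝ) ^ θ := by
  rw [← cm_rpow θ hn]
  exact (cm_le' hn h).2

lemma one_le_cm {a : ℕ → ℝ} {n : ℕ} (hn : n ≠ 0) (h : ∀ p : ℕ, p.Prime → p ∣ n → 1 ≤ a p) :
    1 ≤ cm a n := by
  rw [← cm_const_one n]
  exact (cm_le' hn fun p hp hd => ⟨zero_le_one, h p hp hd⟩).2

lemma cm_abs (a : ℕ → ℝ) (n : ℕ) : |cm a n| = cm (fun p => |a p|) n := by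
  rcases Nat.eq_zero_or_pos n with h0 | h0
  · rw [h0, cm_zero, cm_zero, abs_one]
  · refine ind (P := fun n => |cm a n| = cm (fun p => |a p|) n) ?_ ?_ h0.ne'
    · rw [cm_one, cm_one, abs_one]
    · intro p m hp hm ih
      rw [cm_prime_mul _ hp hm, cm_prime_mul _ hp hm, abs_mul, ih]

/-- for squarefree `n`, `cm` is the product over the prime factors -/
lemma cm_squarefree (a : ℕ → ℝ) {n : ℕ} (hn : Squarefree n) :
    cm a n = ∏ p ∈ n.primeFactors, a p := by
  unfold cm
  have h : n.primeFactorsList.Nodup := (Nat.squarefree_iff_nodup_primeFactorsList hn.ne_zero).1 hn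
  rw [Nat.primeFactors, List.prod_toFinset a h]

/-- splitting of a product -/
lemma cm_split (u s : ℕ → ℝ) (hu : ∀ p, 0 ≤ u p) (hs : ∀ p, 0 ≤ s p) {n : ℕ} (hn : n ≠ 0) :
    cm (fun p => 1 + (u p + s p)) n ≤
      (n.primeFactorsList.map (fun p => u p * cm (fun q => 1 + (u q + s q)) (n / p))).sum +
      cm (fun p => 1 + s p) n := by
  have h0 : ∀ p : ℕ, p.Prime → 0 ≤ 1 + (u p + s p) := fun p _ => by linarith [hu p, hs p]
  refine ind (P := fun n => cm (fun p => 1 + (u p + s p)) n ≤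
      (n.primeFactorsList.map (fun p => u p * cm (fun q => 1 + (u q + s q)) (n / p))).sum +
      cm (fun p => 1 + s p) n) ?_ ?_ hn
  · rw [cm_one, cm_one]
    simp
  · intro p m hp hm ih
    have hl : ((p * m).primeFactorsList.map
        (fun q => u q * cm (fun r => 1 + (u r + s r)) (p * m / q))).sum =
        u p * cm (fun r => 1 + (u r + s r)) m +
        (m.primeFactorsList.map
        (fun q => u q * cm (fun r => 1 + (u r + s r)) (p * m / q))).sum := by
      rw [((Nat.perm_primeFactorsList_mul hp.ne_zero hm).map _).sum_eq, List.map_append,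
        List.sum_append, Nat.primeFactorsList_prime hp, List.map_singleton, List.sum_singleton,
        Nat.mul_div_cancel_left m hp.pos]
    rw [hl, cm_prime_mul _ hp hm, cm_prime_mul _ hp hm]
    have hl2 : m.primeFactorsList.map
        (fun q => u q * cm (fun r => 1 + (u r + s r)) (p * m / q)) =
        m.primeFactorsList.map
        (fun q => (1 + (u p + s p)) * (u q * cm (fun r => 1 + (u r + s r)) (m / q))) := by
      apply List.map_congr_left
      intro q hq
      have hqp := Nat.prime_of_mem_primeFactorsList hq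
      have hqd := Nat.dvd_of_mem_primeFactorsList hq
      rw [Nat.mul_div_assoc p hqd, cm_prime_mul _ hp]
      · ring
      · exact (Nat.div_pos (Nat.le_of_dvd (Nat.pos_of_ne_zero hm) hqd) hqp.pos).ne'
    rw [hl2, List.sum_map_mul_left]
    have hS : 0 ≤ (m.primeFactorsList.map
        (fun q => u q * cm (fun r => 1 + (u r + s r)) (m / q))).sum := by
      apply List.sum_nonneg
      intro x hx
      rw [List.mem_map] at hx
      obtain ⟨q, _, rfl⟩ := hx
      exact mul_nonneg (hu q) (cm_nonneg h0 _)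
    set S := (m.primeFactorsList.map
        (fun q => u q * cm (fun r => 1 + (u r + s r)) (m / q))).sum with hSd
    set X := cm (fun p => 1 + (u p + s p)) m with hX
    set Y := cm (fun p => 1 + s p) m with hY
    have hup := hu p
    have hsp := hs p
    have h1 : (1 + s p) * X ≤ (1 + s p) * (S + Y) := mul_le_mul_of_nonneg_left ih (by linarith)
    have h2 : (1 + s p) * S ≤ (1 + (u p + s p)) * S := mul_le_mul_of_nonneg_right (by linarith) hS
    nlinarith

/-- splitting, with a sum over the distinct prime factors -/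
lemma cm_split' (u s : ℕ → ℝ) (hu : ∀ p, 0 ≤ u p) (hs : ∀ p, 0 ≤ s p) {n : ℕ} (hn : n ≠ 0)
    (K : ℕ) (hK : ∀ p : ℕ, p.Prime → p ∣ n → u p ≠ 0 → n.factorization p ≤ K) :
    cm (fun p => 1 + (u p + s p)) n ≤
      K * ∑ p ∈ n.primeFactors, u p * cm (fun q => 1 + (u q + s q)) (n / p) +
      cm (fun p => 1 + s p) n := by
  have h0 : ∀ p : ℕ, p.Prime → 0 ≤ 1 + (u p + s p) := fun p _ => by linarith [hu p, hs p]
  refine (cm_split u s hu hs hn).trans ?_
  have h1 : (n.primeFactorsList.map (fun p => u p * cm (fun q => 1 + (u q + s q)) (n / p))).sum ≤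
      K * ∑ p ∈ n.primeFactors, u p * cm (fun q => 1 + (u q + s q)) (n / p) := by
    rw [Finset.sum_list_map_count, mul_sum]
    apply Finset.sum_le_sum
    intro p hp
    have hp' : p ∈ n.primeFactors := hp
    rw [nsmul_eq_mul]
    by_cases hup : u p = 0
    · rw [hup]; simp
    · apply mul_le_mul_of_nonneg_right _ (mul_nonneg (hu p) (cm_nonneg h0 _))
      rw [Nat.primeFactorsList_count_eq]
      exact_mod_cast hK p (Nat.prime_of_mem_primeFactors hp') (Nat.dvd_of_mem_primeFactors hp') hup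
  linarith

/-- perturbation of a product -/
lemma cm_perturb (x g g' G : ℕ → ℝ) (ε : ℝ) (hx : ∀ p, 0 ≤ x p)
    (hε : 0 ≤ ε) (hg : ∀ p, |g p| ≤ G p) (hg' : ∀ p, |g' p| ≤ G p)
    (hgg : ∀ p, |g p - g' p| ≤ ε * G p) {n : ℕ} (hn : n ≠ 0) :
    |cm (fun p => g p - x p) n| ≤ cm (fun p => x p + G p) n ∧
    |cm (fun p => g p - x p) n - cm (fun p => g' p - x p) n| ≤
      ε * cm (fun p => x p + 2 * G p) n := by
  have hG : ∀ p, 0 ≤ G p := fun p => (abs_nonneg _).trans (hg p)
  have hb : ∀ p, |g p - x p| ≤ x p + G p := fun p => by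
    have h1 := abs_sub (g p) (x p)
    rw [abs_of_nonneg (hx p)] at h1
    linarith [hg p]
  have hb' : ∀ p, |g' p - x p| ≤ x p + G p := fun p => by
    have h1 := abs_sub (g' p) (x p)
    rw [abs_of_nonneg (hx p)] at h1
    linarith [hg' p]
  refine ind (P := fun n => |cm (fun p => g p - x p) n| ≤ cm (fun p => x p + G p) n ∧
    |cm (fun p => g p - x p) n - cm (fun p => g' p - x p) n| ≤
      ε * cm (fun p => x p + 2 * G p) n) ?_ ?_ hn
  · simp only [cm_one]
    refine ⟨by simp, ?_⟩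
    rw [sub_self, abs_zero]
    linarith
  · rintro p m hp hm ⟨h1, h2⟩
    simp only [cm_prime_mul _ hp hm]
    have h3 : cm (fun p => x p + G p) m ≤ cm (fun p => x p + 2 * G p) m := by
      apply cm_le
      intro q _
      have := hx q
      have := hG q
      exact ⟨by linarith, by linarith⟩
    set A := cm (fun p => g p - x p) m with hA
    set A' := cm (fun p => g' p - x p) m with hA'
    set B := cm (fun p => x p + G p) m with hB
    set D := cm (fun p => x p + 2 * G p) m with hD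
    have hB0 : 0 ≤ B := (abs_nonneg _).trans h1
    have hxa : 0 ≤ x p + G p := add_nonneg (hx p) (hG p)
    refine ⟨?_, ?_⟩
    · rw [abs_mul]
      exact mul_le_mul (hb p) h1 (abs_nonneg _) hxa
    · have e : (g p - x p) * A - (g' p - x p) * A' = (g p - g' p) * A + (g' p - x p) * (A - A') := by
        ring
      rw [e]
      refine (abs_add_le _ _).trans ?_
      rw [abs_mul, abs_mul]
      have t1 : |g p - g' p| * |A| ≤ (ε * G p) * D :=
        mul_le_mul (hgg p) (h1.trans h3) (abs_nonneg _) (mul_nonneg hε (hG p))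
      have t2 : |g' p - x p| * |A - A'| ≤ (x p + G p) * (ε * D) :=
        mul_le_mul (hb' p) h2 (abs_nonneg _) hxa
      calc |g p - g' p| * |A| + |g' p - x p| * |A - A'|
          ≤ (ε * G p) * D + (x p + G p) * (ε * D) := add_le_add t1 t2
        _ = ε * ((x p + 2 * G p) * D) := by ring

/-- the sum of a completely multiplicative function over numbers `≥ 2` composed of the primes
in `P` -/
lemma euler (a : ℕ → ℝ) (ha : ∀ p, p.Prime → 0 ≤ a p) (P : Finset ℕ) (hP0 : ∀ p ∈ P, p.Prime)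
    (s : ℝ) (hs : ∑ p ∈ P, a p ≤ s)
    (hs2 : s ≤ 1 / 2) (D : Finset ℕ) (hD : ∀ d ∈ D, 2 ≤ d ∧ ∀ p : ℕ, p.Prime → p ∣ d → p ∈ P) :
    ∑ d ∈ D, cm a d ≤ 2 * s := by
  set M := D.sup id with hM
  set F := (Icc 2 M).filter (fun d => ∀ p : ℕ, p.Prime → p ∣ d → p ∈ P) with hF
  have hDF : D ⊆ F := by
    intro d hd
    rw [hF, mem_filter, mem_Icc]
    exact ⟨⟨(hD d hd).1, Finset.le_sup (f := id) hd⟩, (hD d hd).2⟩
  have hc0 : ∀ n, 0 ≤ cm a n := cm_nonneg ha
  have h1 : ∑ d ∈ D, cm a d ≤ ∑ d ∈ F, cm a d :=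
    Finset.sum_le_sum_of_subset_of_nonneg hDF fun d _ _ => hc0 d
  refine h1.trans ?_
  have hs0 : 0 ≤ ∑ p ∈ P, a p := Finset.sum_nonneg fun p hp => ha p (hP0 p hp)
  -- removing the smallest prime factor
  have h2 : ∑ d ∈ F, cm a d ≤ ∑ x ∈ P ×ˢ (insert 1 F), a x.1 * cm a x.2 := by
    have hinj : Set.InjOn (fun d : ℕ => (d.minFac, d / d.minFac)) F := by
      intro d _ d' _ hdd
      simp only [Prod.mk.injEq] at hdd
      rw [← Nat.mul_div_cancel' (Nat.minFac_dvd d), ← Nat.mul_div_cancel' (Nat.minFac_dvd d'),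
        hdd.1, ← hdd.1, hdd.2, hdd.1]
    have h3 : ∑ d ∈ F, cm a d = ∑ x ∈ F.image (fun d : ℕ => (d.minFac, d / d.minFac)),
        a x.1 * cm a x.2 := by
      rw [Finset.sum_image hinj]
      apply Finset.sum_congr rfl
      intro d hd
      rw [hF, mem_filter, mem_Icc] at hd
      have hd1 : d ≠ 1 := by omega
      have hp := Nat.minFac_prime hd1
      have hq : d / d.minFac ≠ 0 :=
        (Nat.div_pos (Nat.minFac_le (by omega)) hp.pos).ne'
      conv_lhs => rw [← Nat.mul_div_cancel' (Nat.minFac_dvd d)]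
      exact cm_prime_mul a hp hq
    rw [h3]
    apply Finset.sum_le_sum_of_subset_of_nonneg
    · intro x hx
      rw [mem_image] at hx
      obtain ⟨d, hd, rfl⟩ := hx
      rw [hF, mem_filter, mem_Icc] at hd
      have hd1 : d ≠ 1 := by omega
      have hp := Nat.minFac_prime hd1
      have hq : 0 < d / d.minFac := Nat.div_pos (Nat.minFac_le (by omega)) hp.pos
      rw [mem_product]
      refine ⟨hd.2 _ hp (Nat.minFac_dvd d), ?_⟩
      simp only
      rw [mem_insert]
      by_cases h1 : d / d.minFac = 1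
      · exact Or.inl h1
      · right
        rw [hF, mem_filter, mem_Icc]
        refine ⟨⟨by omega, (Nat.div_le_self _ _).trans hd.1.2⟩, ?_⟩
        intro p hpp hpd
        exact hd.2 p hpp (hpd.trans (Nat.div_dvd_of_dvd (Nat.minFac_dvd d)))
    · intro x hx _
      rw [mem_product] at hx
      exact mul_nonneg (ha _ (hP0 _ hx.1)) (hc0 _)
  rw [Finset.sum_product] at h2
  have h1F : (1 : ℕ) ∉ F := by
    rw [hF, mem_filter, mem_Icc]; omega
  have h3 : ∑ x ∈ P, ∑ y ∈ insert 1 F, a x * cm a y = (∑ p ∈ P, a p) * (1 + ∑ d ∈ F, cm a d) := by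
    rw [Finset.sum_mul]
    apply Finset.sum_congr rfl
    intro x _
    rw [← Finset.mul_sum, Finset.sum_insert h1F, cm_one]
  rw [h3] at h2
  set T := ∑ d ∈ F, cm a d with hT
  have hT0 : 0 ≤ T := Finset.sum_nonneg fun d _ => hc0 d
  have h4 : (∑ p ∈ P, a p) * (1 + T) ≤ s * (1 + T) :=
    mul_le_mul_of_nonneg_right hs (by linarith)
  have h5 : s * T ≤ 1 / 2 * T := mul_le_mul_of_nonneg_right hs2 hT0
  linarith

end Pool.Agent.Y946.CM
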