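import Pool.Agent.H307R2.LU

/-!
# The functions `χ(n) n^(-α)` and the Kahane-Saias question
-/

set_option autoImplicit false

namespace Pool.Agent.Y946.CM

open Finset Filter Topology

/-- the Kahane-Saias question: every CMO function has partial sums `Ω(x^(-1/2))` -/
def KS : Prop :=
  ∀ f : ℕ → ℂ,
    f 1 = 1 →
    (∀ m n : ℕ, 0 < m → 0 < n → f (m * n) = f m * f n) →
    Tendsto (fun N : ℕ => ∑ n ∈ Finset.range N, f (n + 1)) atTop (𝓝 0) →
    ∃ c : ℝ, 0 < c ∧ ∀ M : ℕ, ∃ N : ℕ, M ≤ N ∧ 0 < N ∧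
      c / Real.sqrt (N : ℝ) ≤ ‖∑ n ∈ Finset.Icc 1 N, f n‖

lemma sum_range_eq (f : ℕ → ℂ) (N : ℕ) : ∑ n ∈ Finset.range N, f (n + 1) = ∑ n ∈ Icc 1 N, f n := by
  rw [Finset.range_eq_Ico, Finset.sum_Ico_add' f 0 N 1]
  rfl

/-- a completely multiplicative function with partial sums `O(N^(-1/2-c))` refutes the question -/
theorem not_KS {f : ℕ → ℂ} (h1 : f 1 = 1)
    (hmul : ∀ m n : ℕ, 0 < m → 0 < n → f (m * n) = f m * f n) {c C : ℝ} (hc : 0 < c)
    (hC : 0 < C) (hb : ∀ N : ℕ, 1 ≤ N → ‖∑ n ∈ Icc 1 N, f n‖ ≤ C * (N : ℝ) ^ (-(1 / 2 : ℝ) - c)) :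
    ¬ KS := by
  intro hKS
  have hlim : Tendsto (fun N : ℕ => ∑ n ∈ Finset.range N, f (n + 1)) atTop (𝓝 0) := by
    rw [tendsto_zero_iff_norm_tendsto_zero]
    have h3 : Tendsto (fun x : ℝ => x ^ (-(1 / 2 + c))) atTop (𝓝 0) :=
      tendsto_rpow_neg_atTop (by positivity)
    have h4 := (h3.comp tendsto_natCast_atTop_atTop).const_mul C
    rw [mul_zero] at h4
    refine squeeze_zero' (Eventually.of_forall fun N => norm_nonneg _) ?_ h4
    filter_upwards [eventually_ge_atTop 1] with N hN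
    rw [sum_range_eq]
    refine (hb N hN).trans (le_of_eq ?_)
    simp only [Function.comp]
    congr 2
    ring
  obtain ⟨c', hc', h⟩ := hKS f h1 hmul hlim
  -- choose `N` large
  have h5 : Tendsto (fun N : ℕ => C * (N : ℝ) ^ (-c)) atTop (𝓝 0) := by
    have h6 := ((tendsto_rpow_neg_atTop hc).comp tendsto_natCast_atTop_atTop).const_mul C
    rw [mul_zero] at h6
    exact h6
  obtain ⟨M, hM⟩ := eventually_atTop.1 (h5.eventually (gt_mem_nhds hc'))
  obtain ⟨N, hMN, hN0, hN⟩ := h M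
  have h7 := hb N hN0
  have h8 := hM N hMN
  have hNr : (0 : ℝ) < N := by exact_mod_cast hN0
  have h9 : C * (N : ℝ) ^ (-(1 / 2 : ℝ) - c) = (C * (N : ℝ) ^ (-c)) / Real.sqrt N := by
    rw [Real.sqrt_eq_rpow, mul_div_assoc, ← Real.rpow_sub hNr]
    congr 2
    ring
  rw [h9] at h7
  have h10 : (C * (N : ℝ) ^ (-c)) / Real.sqrt N < c' / Real.sqrt N :=
    div_lt_div_of_pos_right h8 (Real.sqrt_pos.2 hNr)
  linarith

/-- the question implies GRH for all nonprincipal Dirichlet characters -/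
theorem grh_of_KS (hKS : KS) (q : ℕ) [NeZero q] (χ : DirichletCharacter ℂ q) (hχ : χ ≠ 1)
    (s : ℂ) (hs : χ.LFunction s = 0) : s.re ≤ 1 / 2 := by
  by_contra hcon
  push Not at hcon
  have hre : 0 < s.re := by linarith
  set f : ℕ → ℂ := fun n => χ (n : ZMod q) * (n : ℂ) ^ (-s) with hf
  have hs0 : s ≠ 0 := by
    rintro rfl
    simp at hre
  have hq : (0 : ℝ) < q := by exact_mod_cast NeZero.pos q
  refine not_KS (f := f) (c := s.re - 1 / 2) (C := ‖s‖ * (q / s.re)) ?_ ?_ (by linarith)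
    (by have := norm_pos_iff.2 hs0; positivity) ?_ hKS
  · simp [hf]
  · intro m n _ _
    simp only [hf]
    push_cast
    rw [map_mul, Complex.natCast_mul_natCast_cpow]
    ring
  · intro N hN
    have h1 := Pool.Agent.H307R2.LFunction_eq hχ hN hre
    rw [hs] at h1
    have h2 := Pool.Agent.H307R2.TM_norm_le hN (Pool.Agent.H307R2.Ech_norm_le hχ N) hre
    have h3 : ∑ n ∈ Icc 1 N, f n = -(s * Pool.Agent.H307R2.TM N (Pool.Agent.H307R2.Ech χ N) s) := by
      have h4 : ∑ n ∈ Icc 1 N, f n = ∑ n ∈ Finset.Icc 1 N, χ (n : ZMod q) * (n : ℂ) ^ (-s) := rfl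
      rw [h4]
      exact eq_neg_of_add_eq_zero_left h1.symm
    rw [h3, norm_neg, norm_mul]
    calc ‖s‖ * ‖Pool.Agent.H307R2.TM N (Pool.Agent.H307R2.Ech χ N) s‖
        ≤ ‖s‖ * (q * ((N : ℝ) ^ (-s.re) / s.re)) := mul_le_mul_of_nonneg_left h2 (norm_nonneg _)
      _ = ‖s‖ * (q / s.re) * (N : ℝ) ^ (-(1 / 2 : ℝ) - (s.re - 1 / 2)) := by
          have : -(1 / 2 : ℝ) - (s.re - 1 / 2) = -s.re := by ring
          rw [this]
          ring

end Pool.Agent.Y946.CM
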