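import Pool.Agent.Y946.CM.Basic

/-!
# MP_768c9c_nt: completely multiplicative version of the estimates of `W76.MO`.  Definitions.

`E3` is the completely multiplicative version of `E2`; `cn` is the set of the rough elements of a
cell which are not squarefree.
-/

set_option autoImplicit false

namespace Pool.Agent.Y946.CM

open Finset Filter Topology
open scoped Classical
open Pool.Agent.W76.MO

/-- `∏_{p^a || n} (1 + 2 p g(p))^a` -/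
noncomputable def E3 (E : Env) (j n : ℕ) : ℝ := cm (fun p => 1 + 2 * (p * E.g j p)) n

/-- the non-squarefree `R`-rough elements of a cell -/
noncomputable def cn (E : Env) (R i k : ℕ) : Finset ℕ :=
  (cell E.δ i k).filter (fun n => ¬ Squarefree n ∧ Rough R n)

/-- (ES) -/
def ESum (E : Env) : Prop := ∀ η : ℝ, 0 < η → ∃ R₀ : ℕ, ∀ R : ℕ, R₀ ≤ R → ∃ J : ℕ, ∀ j : ℕ, J ≤ j →
  ∀ M : ℕ, ∑ t ∈ (Icc 2 M).filter (fun t => Rough R t),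
    E3 E j t / t * (t : ℝ) ^ (-E.δ / 2) ≤ η

/-- (UP) -/
def UPart (E : Env) : Prop := ∀ η : ℝ, 0 < η → ∃ R₀ : ℕ, ∀ R : ℕ, R₀ ≤ R → ∃ J : ℕ,
  ∀ j : ℕ, J ≤ j → ∀ i : ℕ, j ≤ i → ∀ k : ℕ, k < nc E.δ i →
    ∑ n ∈ cn E R i k, ∑ p ∈ n.primeFactors.filter (fun p : ℕ => (2 : ℝ) ^ (3 / 5 * (i : ℝ)) < p),
      E.gu j p * (E3 E j (n / p) / ((n / p : ℕ) : ℝ)) ≤ η * E.w i

/-- (HP) -/
def HPart (E : Env) : Prop := ∀ η : ℝ, 0 < η → ∃ R₀ : ℕ, ∀ R : ℕ, R₀ ≤ R → ∃ J : ℕ,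
  ∀ j : ℕ, J ≤ j → ∀ i : ℕ, j ≤ i → ∀ k : ℕ, k < nc E.δ i →
    ∑ n ∈ cn E R i k, ∑ q ∈ n.primeFactors.filter (fun q : ℕ => (2 : ℝ) ^ (1 / 20 * (i : ℝ)) < q),
      E.gh j q * (E3 E j (n / q) / ((n / q : ℕ) : ℝ)) ≤ η * E.w i

/-- (SP) contribution of the small control primes; all elements of the cell -/
def SPart (E : Env) : Prop := ∀ η : ℝ, 0 < η → ∃ J : ℕ, ∀ j : ℕ, J ≤ j → ∀ i : ℕ, j ≤ i →
  ∀ k : ℕ, k < nc E.δ i →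
    ∑ n ∈ cell E.δ i k, (1 / (n : ℝ)) * cm (fun p => 1 + 2 * (p * E.gs j i p)) n ≤ η * E.w i

/-- the part of the host sum which comes from the bad cell `(i', k')`, restricted to pairs
`(n₁, n)` satisfying `P` -/
noncomputable def HT (E : Env) (j R i k i' k' : ℕ) (P : ℕ → ℕ → Prop) : ℝ :=
  ∑ u ∈ ((E.Host j i' k') ×ˢ (cn E R i k)).filter (fun u : ℕ × ℕ =>
      lp u.1 ∣ u.2 ∧ (2 : ℝ) ^ (1 / 20 * (i : ℝ)) < lp u.1 ∧ P u.1 u.2),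
    E.w i' / ((E.Host j i' k').card : ℝ) * ((u.1 : ℝ) / u.2) * E3 E j (u.2 / lp u.1)

/-- (H1) hosts of cells of scale `< (1-τ) i` -/
def HP1 (E : Env) : Prop := ∀ η : ℝ, 0 < η → ∃ J : ℕ, ∀ j : ℕ, J ≤ j →
  ∀ R i k : ℕ, j ≤ i → k < nc E.δ i →
  ∑ i' ∈ (range (2 * i + 3)).filter (fun i' : ℕ => j ≤ i' ∧ (i' : ℝ) < (1 - E.τ) * i),
    ∑ k' ∈ E.Bad i', HT E j R i k i' k' (fun _ _ => True) ≤ η * E.w i

/-- (HB) hosts of cells of scale `≥ (1-τ) i`, pairs with `n₁ ∤ n` -/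
def HPB (E : Env) : Prop := ∀ η : ℝ, 0 < η → ∃ J : ℕ, ∀ j : ℕ, J ≤ j →
  ∀ R i k : ℕ, j ≤ i → k < nc E.δ i →
  ∑ i' ∈ (range (2 * i + 3)).filter (fun i' : ℕ => j ≤ i' ∧ (1 - E.τ) * i ≤ (i' : ℝ)),
    ∑ k' ∈ E.Bad i', HT E j R i k i' k' (fun a b => ¬ a ∣ b) ≤ η * E.w i

/-- (HA) hosts of cells of scale `≥ (1-τ) i`, pairs with `n₁ ∣ n` -/
def HPA (E : Env) : Prop := ∀ η : ℝ, 0 < η → ∃ R₀ : ℕ, ∀ R : ℕ, R₀ ≤ R → ∃ J : ℕ,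
  ∀ j : ℕ, J ≤ j → ∀ i k : ℕ, j ≤ i → k < nc E.δ i →
  ∑ i' ∈ (range (2 * i + 3)).filter (fun i' : ℕ => j ≤ i' ∧ (1 - E.τ) * i ≤ (i' : ℝ)),
    ∑ k' ∈ E.Bad i', HT E j R i k i' k' (fun a b => a ∣ b) ≤ η * E.w i

/-- (NS) the total mass of the rough numbers which are not squarefree -/
def NSum (E : Env) : Prop := ∀ η : ℝ, 0 < η → ∃ R₀ : ℕ, ∀ R : ℕ, R₀ ≤ R → ∃ J : ℕ,
  ∀ j : ℕ, J ≤ j → ∀ i : ℕ, j ≤ i → ∀ k : ℕ, k < nc E.δ i →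
    ∑ n ∈ cn E R i k, (1 / (n : ℝ)) * E3 E j n ≤ η * E.w i

/-! ### the tasks -/

/-- task ES -/
def T_ES : Prop := ∀ E : Env, E.GBounds → ESum E
/-- task UP -/
def T_UP : Prop := ∀ E : Env, E.GBounds → ESum E → UPart E
/-- task SP -/
def T_SP : Prop := ∀ E : Env, E.GBounds → SPart E
/-- task H1 -/
def T_H1 : Prop := ∀ E : Env, E.HCount → E.GBounds → HP1 E
/-- task HB -/
def T_HB : Prop := ∀ E : Env, E.HCount → E.GBounds → Env.PairB E.τ E.δ → HPB E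
/-- task HA -/
def T_HA : Prop := ∀ E : Env, E.HCount → E.GBounds → ESum E → HPA E
/-- task HX -/
def T_HX : Prop := ∀ E : Env, E.GBounds → HP1 E → HPA E → HPB E → HPart E
/-- task NS -/
def T_NS : Prop := ∀ E : Env, E.GBounds → UPart E → HPart E → SPart E → NSum E

end Pool.Agent.Y946.CM
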