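import Pool.Agent.Y946.CM.Concl
import Pool.Agent.Y946.CM.ES
import Pool.Agent.Y950.CM.SP
import Pool.Agent.Y574.CM.H1
import Pool.Agent.Y574.CM.HA
import Pool.Agent.Y748.CM.HX
import Pool.Agent.Y748.CM.HB
import Pool.Agent.W501.MO.HC
import Pool.Agent.W683.MO.GB
import Pool.Agent.W280.MO.ES
import Pool.Agent.W596.MO.UP
import Pool.Agent.W683.MO.SP
import Pool.Agent.W1.MO.PB
import Pool.Agent.W640.MO.H1
import Pool.Agent.W356.MO.HB
import Pool.Agent.W326.MO.HA3
import Pool.Agent.W356.MO.HX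

/-!
# Every environment gives a completely multiplicative function
-/

set_option autoImplicit false

namespace Pool.Agent.Y946.CM

open Finset
open scoped Classical
open Pool.Agent.W76.MO

theorem concl_of_env (E : Env) : Concl := by
  have hHC := Pool.Agent.W501.MO.hc E
  have hGB := Pool.Agent.W683.MO.gb E hHC
  have hES := Pool.Agent.W280.MO.T_ES_proof E hGB
  have hUP := Pool.Agent.W596.MO.upart E hGB hES
  have hSP := Pool.Agent.W683.MO.sp E hGB
  have hPB := Pool.Agent.W1.MO.pb E.τ E.δ E.hτ E.hτ' E.hδ E.hδ'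
  have hHP := Pool.Agent.W356.MO.HX E hGB (Pool.Agent.W640.MO.h1 E hHC hGB)
    (Pool.Agent.W326.MO.task_HA E hHC hGB hES) (Pool.Agent.W356.MO.HB E hHC hGB hPB)
  have kES := es E hGB
  have kUP := up E hGB kES
  have kSP := Pool.Agent.Y950.CM.sp E hGB
  have kHP := Pool.Agent.Y748.CM.HX E hGB (Pool.Agent.Y574.CM.h1 E hHC hGB)
    (Pool.Agent.Y574.CM.task_HA E hHC hGB kES) (Pool.Agent.Y748.CM.HB E hHC hGB hPB)
  exact env_concl E hHC hGB hUP hHP hSP (ns E hGB kUP kHP kSP)

end Pool.Agent.Y946.CM
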