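import Pool.Agent.Y946.CM.FinRH
import Pool.Agent.Y847.QRH.US2

/-!
# Finitely many exceptional zeros
-/

set_option autoImplicit false

namespace Pool.Agent.Y946.CM

open Finset Filter Topology

/-- there is an absolute `κ > 0` such that, if only finitely many zeros of `ζ` have real part
`> 1/2 + κ`, then some completely multiplicative function has partial sums `O(N^(-1/2-c))` -/
theorem exists_kappa (hZA : ZA2) : ∃ κ : ℝ, 0 < κ ∧ (FinEx (1 / 2 + κ) → Concl) := by
  obtain ⟨τ, δ, hτ, hτ1, hδ, hδ1, h⟩ := exists_param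
  exact ⟨δ / 4, by linarith, fun hF =>
    h (Pool.Agent.Y847.QRH.uset_finEx hZA τ δ hτ hτ1 hδ hδ1 hF)⟩

end Pool.Agent.Y946.CM
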