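import Pool.Agent.Y946.CM.Env
import Pool.Agent.W76.MO.Fin1
import Pool.Agent.W161.MO.MR3
import Pool.Agent.W544.MO.Ho

/-!
# The RH case
-/

set_option autoImplicit false

namespace Pool.Agent.Y946.CM

open Finset
open scoped Classical
open Pool.Agent.W76.MO

/-- the conclusion of `USet` for one pair of parameters -/
def USetAt (τ δ : ℝ) : Prop :=
  ∃ (isU : ℕ → Prop) (CU cU : ℝ) (i₁ : ℕ), 1 ≤ CU ∧ 0 < cU ∧ 1 ≤ i₁ ∧ (∀ p, isU p → p.Prime) ∧
  (∀ i : ℕ, i₁ ≤ i → ∀ a L : ℕ, 2 ^ i ≤ a → a + L ≤ 2 ^ (i + 1) →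
    (2 : ℝ) ^ (τ / 4 * i) ≤ L → (((Ioc a (a + L)).filter isU).card : ℝ) ≤ CU * L / (i : ℝ) ^ 4) ∧
  (∀ i : ℕ, i₁ ≤ i → (((range (nc δ i)).filter (fun k =>
    (((cell δ i k).filter isU).card : ℝ) < cU * hh δ i / (i : ℝ) ^ 4)).card : ℝ) ≤
      (2 : ℝ) ^ (3 * δ * i))

theorem hosts : Hosts := Pool.Agent.W544.MO.main Pool.Agent.W761.MO.btr
  (Pool.Agent.W161.MO.midRange Pool.Agent.W565.MOFS.FS)

/-- for some admissible parameters, `USetAt` gives the conclusion -/
theorem exists_param : ∃ τ δ : ℝ, 0 < τ ∧ τ ≤ 1 / 100 ∧ 0 < δ ∧ δ ≤ τ / 1000 ∧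
    (USetAt τ δ → Concl) := by
  obtain ⟨τ₀, γ₀, c, δ₀, hτ₀, hγ₀, hc, hδ₀, hhost⟩ := hosts
  set τ : ℝ := min (min τ₀ γ₀) (1 / 100) with hτd
  have hτ : 0 < τ := lt_min (lt_min hτ₀ hγ₀) (by norm_num)
  have hτ1 : τ ≤ 1 / 100 := min_le_right _ _
  set δ : ℝ := min δ₀ (τ / 1000) with hδd
  have hδ : 0 < δ := lt_min hδ₀ (by positivity)
  have hδ1 : δ ≤ τ / 1000 := min_le_right _ _
  refine ⟨τ, δ, hτ, hτ1, hδ, hδ1, fun hU => ?_⟩
  obtain ⟨i₀, hi₀, hhost⟩ := hhost δ hδ (min_le_left _ _)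
  obtain ⟨isU, CU, cU, i₁, hCU, hcU, hi₁, hup, huu, hub⟩ := hU
  obtain ⟨CB, hCB, i₂, hi₂, hbtr⟩ := Pool.Agent.W761.MO.btr τ (τ / 4) hτ (by positivity)
  exact concl_of_env
    { τ := τ, δ := δ, CU := CU, cU := cU, cH := c, CB := max CB 1, isU := isU
      i₁ := i₀ + i₁ + i₂
      hτ := hτ, hτ' := hτ1, hδ := hδ, hδ' := hδ1, hCU := hCU, hcU := hcU, hcH := hc
      hCB := le_max_right _ _
      hi₁ := by omega
      u_prime := hup
      u_up := fun i hi => huu i (by omega)
      u_bad := fun i hi => hub i (by omega)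
      host := by
        intro i hi k hk
        have hmul := Pool.Agent.W76.MO.nc_mul δ hδ i
        have hlt : (k + 1) * hh δ i ≤ nc δ i * hh δ i := Nat.mul_le_mul_right _ hk
        have h1 := hhost i (by omega) (2 ^ i + k * hh δ i) (by omega) (by
          rw [pow_succ]
          have : k * hh δ i ≤ (k + 1) * hh δ i := Nat.mul_le_mul_right _ (Nat.le_succ k)
          omega)
        refine h1.trans ?_
        have hi0 : (0 : ℝ) ≤ i := Nat.cast_nonneg i
        have hsub : (Ioc (2 ^ i + k * hh δ i) (2 ^ i + k * hh δ i + hh δ i)).filter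
            (HostNum τ₀ γ₀ i) ⊆ (cell δ i k).filter (HostNum τ τ i) := by
          intro n hn
          rw [mem_filter, mem_Ioc] at hn
          rw [mem_filter]
          refine ⟨?_, ?_⟩
          · unfold cell
            rw [mem_Ioc]
            have : (k + 1) * hh δ i = k * hh δ i + hh δ i := by ring
            omega
          · obtain ⟨m, q, h1, h2, h3, h4, h5, h6⟩ := hn.2
            refine ⟨m, q, h1, h2, ?_, h4, h5, ?_⟩
            · refine le_trans (Real.rpow_le_rpow_of_exponent_le (by norm_num) ?_) h3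
              have : τ ≤ τ₀ := (min_le_left _ _).trans (min_le_left _ _)
              apply mul_le_mul_of_nonneg_right _ hi0
              linarith
            · intro p hp hpm
              refine le_trans (Real.rpow_le_rpow_of_exponent_le (by norm_num) ?_) (h6 p hp hpm)
              have : τ ≤ γ₀ := (min_le_left _ _).trans (min_le_right _ _)
              exact mul_le_mul_of_nonneg_right this hi0
        exact_mod_cast Finset.card_le_card hsub
      btr := by
        intro i hi a L hL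
        refine (hbtr i (by omega) a L hL).trans ?_
        have hi0 : (0 : ℝ) < i := by
          have : 0 < i := by omega
          exact_mod_cast this
        gcongr
        exact le_max_left _ _ }

theorem concl_of_RH (hRH : RiemannHypothesis) : Concl := by
  obtain ⟨τ, δ, hτ, hτ1, hδ, hδ1, h⟩ := exists_param
  have hFew : FewBad := Pool.Agent.W475.MO.fb
    (Pool.Agent.W726.MOBC.main Pool.Agent.W613.MO.za Pool.Agent.W475.MO.gi)
    (Pool.Agent.W815.CL.cellLow Pool.Agent.W761.MO.btr)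
  exact h (Pool.Agent.W377.MOUS.us Pool.Agent.W761.MO.btr hFew hRH τ δ hτ hτ1 hδ hδ1)

end Pool.Agent.Y946.CM
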