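import Pool.Agent.Y946.CM.Key
import Pool.Agent.W76.MO.Asm4

/-!
# The first block
-/

set_option autoImplicit false

namespace Pool.Agent.Y946.CM

open Finset
open scoped Classical
open Pool.Agent.W76.MO Pool.Agent.W76.MO.Env

/-- every prime with a perturbation is large -/
lemma pert_large (E : Env) (j : ℕ) (hj2 : 2 ≤ j)
    (hgu : ∀ p : ℕ, E.gu j p ≠ 0 → E.U j p)
    (hghq : ∀ q : ℕ, E.gh j q ≠ 0 → (2 : ℝ) ^ ((j : ℝ) / 2) ≤ q ∧
      1 + 2 * (q * E.gh j q) ≤ (q : ℝ) ^ (9 * E.δ)) (p : ℕ) (hp : E.g j p ≠ 0) :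
    (2 : ℝ) ^ ((j : ℝ) / 2) ≤ p := by
  by_cases h1 : E.gh j p = 0
  · have h2 : E.gu j p ≠ 0 := by
      intro h2
      apply hp
      unfold g
      rw [h1, h2, add_zero]
    have h3 := (hgu p h2).2
    have h4 : (2 : ℝ) ^ ((j : ℝ) / 2) ≤ (2 : ℝ) ^ (((j - 1 : ℕ) : ℝ)) := by
      apply Real.rpow_le_rpow_of_exponent_le (by norm_num)
      rw [Nat.cast_sub (by omega)]
      have : (2 : ℝ) ≤ j := by exact_mod_cast hj2
      push_cast
      linarith
    rw [Real.rpow_natCast] at h4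
    have h5 : ((2 ^ (j - 1) : ℕ) : ℝ) < p := by exact_mod_cast h3
    push_cast at h5
    linarith
  · exact (hghq p h1).1

/-- the sum of the host perturbations over the numbers up to `2^j` -/
lemma sum_gh_first (E : Env) (j : ℕ) (hj1 : 1 ≤ j) (hh0 : ∀ q : ℕ, 0 ≤ E.gh j q)
    (hsum : ∀ P : Finset ℕ, ∑ q ∈ P, (q * E.gh j q) * (q : ℝ) ^ (-1 + E.τ / 4) ≤ 1 / j)
    (S : Finset ℕ) (hS : S ⊆ Icc 1 (2 ^ j)) :
    ∑ n ∈ S, ∑ p ∈ n.primeFactors, E.gh j p * (1 / ((n / p : ℕ) : ℝ)) ≤ 2 := by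
  have hjr : (1 : ℝ) ≤ j := by exact_mod_cast hj1
  have h1 : ∑ n ∈ S, ∑ p ∈ n.primeFactors, E.gh j p * (1 / ((n / p : ℕ) : ℝ)) ≤
      ∑ x ∈ (Icc (1 : ℕ) (2 ^ j)) ×ˢ (Icc (1 : ℕ) (2 ^ j)), E.gh j x.1 * (1 / (x.2 : ℝ)) := by
    rw [sum_sigma']
    have hi : Set.InjOn (fun x : (_ : ℕ) × ℕ => ((x.2, x.1 / x.2) : ℕ × ℕ))
        ((S.sigma fun n => n.primeFactors : Finset ((_ : ℕ) × ℕ)) : Set ((_ : ℕ) × ℕ)) := by
      rintro ⟨n, p⟩ hx ⟨n', p'⟩ hy hxy
      simp only [Finset.coe_sigma, Set.mem_sigma_iff, Finset.mem_coe] at hx hy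
      simp only [Prod.mk.injEq] at hxy
      obtain ⟨h1, h2⟩ := hxy
      subst h1
      have e1 := Nat.div_mul_cancel (Nat.dvd_of_mem_primeFactors hx.2)
      have e2 := Nat.div_mul_cancel (Nat.dvd_of_mem_primeFactors hy.2)
      have : n = n' := by rw [← e1, ← e2, h2]
      subst this
      rfl
    have e : ∑ x ∈ S.sigma fun n => n.primeFactors,
          E.gh j x.2 * (1 / ((x.1 / x.2 : ℕ) : ℝ)) =
        ∑ y ∈ (S.sigma fun n => n.primeFactors).image
          (fun x : (_ : ℕ) × ℕ => ((x.2, x.1 / x.2) : ℕ × ℕ)), E.gh j y.1 * (1 / (y.2 : ℝ)) := by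
      rw [sum_image hi]
    rw [e]
    refine sum_le_sum_of_subset_of_nonneg ?_ fun x _ _ => mul_nonneg (hh0 _) (by positivity)
    intro y hy
    rw [mem_image] at hy
    obtain ⟨⟨n, p⟩, hx, rfl⟩ := hy
    rw [mem_sigma] at hx
    obtain ⟨hn, hp⟩ := hx
    simp only at hn hp
    have hn := mem_Icc.1 (hS hn)
    have hpp := Nat.prime_of_mem_primeFactors hp
    have hpn := Nat.le_of_dvd hn.1 (Nat.dvd_of_mem_primeFactors hp)
    simp only [mem_product, mem_Icc]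
    refine ⟨⟨hpp.one_le, hpn.trans hn.2⟩, ?_, (Nat.div_le_self _ _).trans hn.2⟩
    exact Nat.div_pos hpn hpp.pos
  refine h1.trans ?_
  rw [sum_product]
  simp only
  have h2 : ∑ x ∈ Icc (1 : ℕ) (2 ^ j), ∑ y ∈ Icc (1 : ℕ) (2 ^ j), E.gh j x * (1 / (y : ℝ)) =
      (∑ x ∈ Icc (1 : ℕ) (2 ^ j), E.gh j x) * ∑ y ∈ Icc (1 : ℕ) (2 ^ j), 1 / (y : ℝ) := by
    rw [sum_mul_sum]
  rw [h2]
  have h3 : ∑ x ∈ Icc (1 : ℕ) (2 ^ j), E.gh j x ≤ 1 / j := by
    refine le_trans (sum_le_sum fun q hq => ?_) (hsum (Icc 1 (2 ^ j)))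
    rw [mem_Icc] at hq
    have hq0 : (1 : ℝ) ≤ q := by exact_mod_cast hq.1
    have h4 : (q : ℝ) * (q : ℝ) ^ (-1 + E.τ / 4) = (q : ℝ) ^ (E.τ / 4) := by
      nth_rewrite 1 [← Real.rpow_one (q : ℝ)]
      rw [← Real.rpow_add (by linarith)]
      congr 1
      ring
    have h5 : 1 ≤ (q : ℝ) ^ (E.τ / 4) := Real.one_le_rpow hq0 (by have := E.hτ; positivity)
    calc E.gh j q = E.gh j q * 1 := (mul_one _).symm
      _ ≤ E.gh j q * (q : ℝ) ^ (E.τ / 4) := mul_le_mul_of_nonneg_left h5 (hh0 q)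
      _ = (q * E.gh j q) * (q : ℝ) ^ (-1 + E.τ / 4) := by rw [← h4]; ring
  have h6 := harm_le j
  calc (∑ x ∈ Icc (1 : ℕ) (2 ^ j), E.gh j x) * ∑ y ∈ Icc (1 : ℕ) (2 ^ j), 1 / (y : ℝ)
      ≤ (1 / j) * (1 + j) := mul_le_mul h3 h6 (sum_nonneg fun _ _ => by positivity) (by positivity)
    _ = 1 / j + 1 := by field_simp
    _ ≤ 1 + 1 := by
        have : 1 / (j : ℝ) ≤ 1 := by rw [div_le_one (by linarith)]; exact hjr
        linarith
    _ = 2 := by norm_num

/-- two primes with perturbations have a product `> 2^j` -/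
lemma two_pert (E : Env) (j : ℕ) (hj3 : 3 ≤ j)
    (hlarge : ∀ p : ℕ, E.g j p ≠ 0 → (2 : ℝ) ^ ((j : ℝ) / 2) ≤ p)
    (p q : ℕ) (hpp : p.Prime) (hp : E.g j p ≠ 0) (hq : E.g j q ≠ 0) : 2 ^ j < p * q := by
  have h1 := hlarge p hp
  have h2 := hlarge q hq
  have h3 : (2 : ℝ) ^ ((j : ℝ) / 2) * (2 : ℝ) ^ ((j : ℝ) / 2) = ((2 ^ j : ℕ) : ℝ) := by
    rw [← Real.rpow_add (by norm_num)]
    push_cast
    rw [← Real.rpow_natCast]
    congr 1
    ring
  have h4 : (0 : ℝ) < (2 : ℝ) ^ ((j : ℝ) / 2) := by positivity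
  rcases lt_trichotomy p q with h | h | h
  · have h5 : (p : ℝ) < q := by exact_mod_cast h
    have h6 : ((2 ^ j : ℕ) : ℝ) < ((p * q : ℕ) : ℝ) := by
      rw [← h3]; push_cast; nlinarith
    exact_mod_cast h6
  · subst h
    have h6 : ((2 ^ j : ℕ) : ℝ) ≤ ((p * p : ℕ) : ℝ) := by
      rw [← h3]; push_cast; exact mul_le_mul h1 h1 h4.le (Nat.cast_nonneg p)
    have h7 : 2 ^ j ≤ p * p := by exact_mod_cast h6
    rcases h7.lt_or_eq with h8 | h8
    · exact h8
    · exfalso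
      have h9 : p ∣ 2 ^ j := by rw [h8]; exact Dvd.intro p rfl
      have h10 : p = 2 := (Nat.prime_dvd_prime_iff_eq hpp Nat.prime_two).1 (hpp.dvd_of_dvd_pow h9)
      rw [h10] at h8
      have h11 : 2 ^ 3 ≤ 2 ^ j := Nat.pow_le_pow_right (by norm_num) hj3
      omega
  · have h5 : (q : ℝ) < p := by exact_mod_cast h
    have h6 : ((2 ^ j : ℕ) : ℝ) < ((p * q : ℕ) : ℝ) := by
      rw [← h3]; push_cast; nlinarith
    exact_mod_cast h6

lemma tau_first (E : Env) (hGB : E.GBounds) (R : ℕ) : ∃ J : ℕ, 1 ≤ J ∧ ∀ j : ℕ, J ≤ j →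
    (E.UB j).Nonempty ∧ (∀ p ∈ E.UB j, p.Prime) ∧
    ∑ n ∈ A0 R j, E.tau j n ≤ 8 * j + 2 := by
  obtain ⟨J, hJ, hGB⟩ := hGB
  refine ⟨J + 3, by omega, fun j hj => ?_⟩
  obtain ⟨hUB, hu0, hh0, hgu, hgh, _, hghq, hsum, _⟩ := hGB j (by omega)
  have hj1 : 1 ≤ j := by omega
  have hj3 : 3 ≤ j := by omega
  have hjr : (1 : ℝ) ≤ j := by exact_mod_cast hj1
  have hcU := E.hcU
  have hcard : 0 < ((E.UB j).card : ℝ) := lt_of_lt_of_le (by positivity) hUB
  have hUBp : ∀ p ∈ E.UB j, p.Prime := by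
    intro p hp
    unfold UB at hp
    exact E.u_prime p (mem_filter.1 hp).2
  refine ⟨by exact Finset.card_pos.1 (by exact_mod_cast hcard), hUBp, ?_⟩
  have hlarge := pert_large E j (by omega) hgu hghq
  have hinj := two_pert E j hj3 hlarge
  -- tau for n in A0
  have htau : ∀ n ∈ A0 R j, E.tau j n = ∑ p ∈ n.primeFactors, E.g j p * (1 / ((n / p : ℕ) : ℝ)) := by
    intro n hn
    unfold A0 at hn
    rw [mem_filter, mem_Icc] at hn
    obtain ⟨⟨hn1, hn2⟩, hsq, _⟩ := hn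
    have h1 := sum_scale n hsq (E.g j)
    unfold tau
    rw [← h1]
    refine sum_congr rfl fun p hp => ?_
    by_cases hg : E.g j p = 0
    · rw [hg, zero_mul, zero_mul]
    congr 1
    have hpp := Nat.prime_of_mem_primeFactors hp
    have hpn := Nat.dvd_of_mem_primeFactors hp
    have hsq' : Squarefree (n / p) := hsq.squarefree_of_dvd (Nat.div_dvd_of_dvd hpn)
    rw [← primeFactors_div n p hsq hp, prod_scale (n / p) hsq']
    have h3 : ∏ q ∈ (n / p).primeFactors, (1 + q * E.g j q) = 1 := by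
      refine prod_eq_one fun q hq => ?_
      have hg2 : E.g j q = 0 := by
        by_contra hg2
        rw [primeFactors_div n p hsq hp, mem_erase] at hq
        have hqp := Nat.prime_of_mem_primeFactors hq.2
        have hqn := Nat.dvd_of_mem_primeFactors hq.2
        have hcop : Nat.Coprime q p := (Nat.coprime_primes hqp hpp).2 hq.1
        have hdvd : q * p ∣ n := hcop.mul_dvd_of_dvd_of_dvd hqn hpn
        have := Nat.le_of_dvd hn1 hdvd
        have := hinj q p hqp hg2 hg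
        omega
      rw [hg2, mul_zero, add_zero]
    rw [h3, mul_one]
  have hsplit : ∑ n ∈ A0 R j, E.tau j n =
      ∑ n ∈ A0 R j, ∑ p ∈ n.primeFactors, E.gu j p * (1 / ((n / p : ℕ) : ℝ)) +
      ∑ n ∈ A0 R j, ∑ p ∈ n.primeFactors, E.gh j p * (1 / ((n / p : ℕ) : ℝ)) := by
    rw [← sum_add_distrib]
    refine sum_congr rfl fun n hn => ?_
    rw [htau n hn, ← sum_add_distrib]
    refine sum_congr rfl fun p _ => ?_
    unfold g
    ring
  -- first part
  have hp1 : ∑ n ∈ A0 R j, ∑ p ∈ n.primeFactors, E.gu j p * (1 / ((n / p : ℕ) : ℝ)) ≤ 8 * j := by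
    have h1 : ∀ n ∈ A0 R j, ∑ p ∈ n.primeFactors, E.gu j p * (1 / ((n / p : ℕ) : ℝ)) =
        if n ∈ E.UB j then 8 * j / ((E.UB j).card : ℝ) else 0 := by
      intro n hn
      unfold A0 at hn
      rw [mem_filter, mem_Icc] at hn
      obtain ⟨⟨hn1, hn2⟩, hsq, _⟩ := hn
      have hkey : ∀ p ∈ n.primeFactors, E.gu j p ≠ 0 → p = n ∧ n ∈ E.UB j := by
        intro p hp hg
        have hpn := Nat.dvd_of_mem_primeFactors hp
        obtain ⟨hU, hlt⟩ := hgu p hg
        obtain ⟨m, rfl⟩ := hpn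
        have hjj : 2 ^ j = 2 * 2 ^ (j - 1) := by
          rw [← pow_succ']
          congr 1
          omega
        have hm : m = 1 := by
          have hm0 : m ≠ 0 := by rintro rfl; omega
          by_contra hm1
          have : 2 ≤ m := by omega
          nlinarith
        subst hm
        rw [mul_one] at hn2 ⊢
        exact ⟨rfl, by unfold UB; exact mem_filter.2 ⟨mem_Ioc.2 ⟨hlt, hn2⟩, hU⟩⟩
      split_ifs with hmem
      · have hnp := hUBp n hmem
        rw [hnp.primeFactors, sum_singleton, Nat.div_self hnp.pos]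
        have hgun : E.gu j n = 8 * j / ((E.UB j).card : ℝ) := by
          have hmem' := hmem
          unfold UB at hmem'
          rw [mem_filter, mem_Ioc] at hmem'
          unfold gu
          rw [if_pos ⟨hmem'.2, hmem'.1.1⟩, if_pos hmem'.1.2]
        rw [hgun]
        simp
      · refine sum_eq_zero fun p hp => ?_
        by_cases hg : E.gu j p = 0
        · rw [hg, zero_mul]
        · exact absurd (hkey p hp hg).2 hmem
    rw [sum_congr rfl h1, ← sum_filter, sum_const, nsmul_eq_mul]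
    have h2 : (((A0 R j).filter (fun n => n ∈ E.UB j)).card : ℝ) ≤ ((E.UB j).card : ℝ) := by
      exact_mod_cast Finset.card_le_card (fun n hn => (mem_filter.1 hn).2)
    calc (((A0 R j).filter (fun n => n ∈ E.UB j)).card : ℝ) * (8 * j / ((E.UB j).card : ℝ))
        ≤ ((E.UB j).card : ℝ) * (8 * j / ((E.UB j).card : ℝ)) :=
          mul_le_mul_of_nonneg_right h2 (by positivity)
      _ = 8 * j := by field_simp
  -- second part
  have hp2 := sum_gh_first E j hj1 hh0 hsum (A0 R j) (by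
    unfold A0
    exact filter_subset _ _)
  rw [hsplit]
  linarith

/-- the elements of the first block which are not squarefree -/
lemma ns_first (E : Env) (j : ℕ) (hj3 : 3 ≤ j) (hu : ∀ p, 0 ≤ E.gu j p)
    (hh : ∀ p, 0 ≤ E.gh j p) (hgu : ∀ p : ℕ, E.gu j p ≠ 0 → E.U j p)
    (hlarge : ∀ p : ℕ, E.g j p ≠ 0 → (2 : ℝ) ^ ((j : ℝ) / 2) ≤ p)
    (z z' : ℕ × ℕ → ℝ) (ε : ℝ) (hz : ∀ i, |z i| ≤ 1) (hz' : ∀ i, |z' i| ≤ 1)
    (hzz : ∀ i, |z i - z' i| ≤ ε) (n : ℕ) (hn1 : 1 ≤ n) (hn2 : n ≤ 2 ^ j)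
    (hsq : ¬ Squarefree n) :
    |fc E j z n - fc E j z' n| ≤
      ε * ∑ q ∈ n.primeFactors, E.gh j q * (1 / ((n / q : ℕ) : ℝ)) := by
  have hε : 0 ≤ ε := (abs_nonneg _).trans (hzz (0, 0))
  have hgz0 : ∀ w : ℕ × ℕ → ℝ, (∀ i, |w i| ≤ 1) → ∀ p, E.g j p = 0 → E.gz j w p = 0 := by
    intro w hw p hp
    have := E.gz_le j w 1 hw hu p
    rw [hp, mul_zero] at this
    exact abs_eq_zero.1 (le_antisymm this (abs_nonneg _))
  have hn0 : n ≠ 0 := by omega
  by_cases hex : ∃ q ∈ n.primeFactors, E.g j q ≠ 0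
  · obtain ⟨q, hq, hgq⟩ := hex
    have hqp := Nat.prime_of_mem_primeFactors hq
    have hqn := Nat.dvd_of_mem_primeFactors hq
    obtain ⟨m, hm⟩ := hqn
    have hm0 : m ≠ 0 := by rintro rfl; rw [mul_zero] at hm; exact hn0 hm
    have hdiv : n / q = m := by rw [hm]; exact Nat.mul_div_cancel_left m hqp.pos
    have hfree : ∀ p : ℕ, p.Prime → p ∣ m → E.g j p = 0 := by
      intro p hp hpm
      by_contra hgp
      have h1 := two_pert E j hj3 hlarge q p hqp hgq hgp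
      have h2 : q * p ∣ n := by rw [hm]; exact Nat.mul_dvd_mul_left q hpm
      have h3 := Nat.le_of_dvd (by omega) h2
      omega
    have hguq : E.gu j q = 0 := by
      by_contra hg
      have h1 := (hgu q hg).2
      have hjj : 2 ^ j = 2 * 2 ^ (j - 1) := by
        rw [← pow_succ']
        congr 1
        omega
      have hm1 : m = 1 := by
        by_contra hm1
        have : 2 ≤ m := by omega
        have h2 : q * 2 ≤ q * m := Nat.mul_le_mul_left q this
        omega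
      apply hsq
      rw [hm, hm1, mul_one]
      exact hqp.squarefree
    have hgg : E.g j q = E.gh j q := by unfold g; rw [hguq, zero_add]
    have hval : ∀ w : ℕ × ℕ → ℝ, (∀ i, |w i| ≤ 1) → fc E j w n =
        (E.gz j w q - 1 / (q : ℝ)) * cm (fun p => 0 - 1 / (p : ℝ)) m := by
      intro w hw
      unfold fc
      rw [hm, cm_prime_mul _ hqp hm0]
      congr 1
      apply cm_congr hm0
      intro p hp hpm
      rw [hgz0 w hw p (hfree p hp hpm)]
    have habs : |cm (fun p => 0 - 1 / (p : ℝ)) m| = 1 / (m : ℝ) := by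
      rw [cm_abs, ← cm_inv hm0]
      apply cm_congr hm0
      intro p _ _
      rw [zero_sub, abs_neg, abs_of_nonneg (by positivity)]
    rw [hval z hz, hval z' hz']
    have e1 : (E.gz j z q - 1 / (q : ℝ)) * cm (fun p => 0 - 1 / (p : ℝ)) m -
        (E.gz j z' q - 1 / (q : ℝ)) * cm (fun p => 0 - 1 / (p : ℝ)) m =
        (E.gz j z q - E.gz j z' q) * cm (fun p => 0 - 1 / (p : ℝ)) m := by ring
    rw [e1, abs_mul, habs, gz_sub]
    have h5 := E.gz_le j (fun i => z i - z' i) ε hzz hu q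
    rw [hgg] at h5
    have h6 : E.gh j q * (1 / ((n / q : ℕ) : ℝ)) ≤
        ∑ q ∈ n.primeFactors, E.gh j q * (1 / ((n / q : ℕ) : ℝ)) :=
      Finset.single_le_sum (f := fun q : ℕ => E.gh j q * (1 / ((n / q : ℕ) : ℝ)))
        (fun p _ => mul_nonneg (hh p) (by positivity)) hq
    rw [hdiv] at h6
    calc |E.gz j (fun i => z i - z' i) q| * (1 / (m : ℝ)) ≤ (ε * E.gh j q) * (1 / (m : ℝ)) :=
          mul_le_mul_of_nonneg_right h5 (by positivity)
      _ = ε * (E.gh j q * (1 / (m : ℝ))) := by ring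
      _ ≤ _ := mul_le_mul_of_nonneg_left h6 hε
  · push Not at hex
    have h1 : fc E j z n = fc E j z' n := by
      unfold fc
      apply cm_congr hn0
      intro p hp hpn
      have hmem : p ∈ n.primeFactors := Nat.mem_primeFactors.2 ⟨hp, hpn, hn0⟩
      rw [hgz0 z hz p (hex p hmem), hgz0 z' hz' p (hex p hmem)]
    rw [h1, sub_self, abs_zero]
    apply mul_nonneg hε
    exact sum_nonneg fun p _ => mul_nonneg (hh p) (by positivity)

end Pool.Agent.Y946.CM
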