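import Pool.Agent.Y946.CM.NS
import Pool.Agent.W76.MO.Asm3

/-!
# The key inequality for the cells and the estimates of the perturbed function
-/

set_option autoImplicit false

namespace Pool.Agent.Y946.CM

open Finset
open scoped Classical
open Pool.Agent.W76.MO Pool.Agent.W76.MO.Env

/-- the key inequality for the cells, packaged -/
structure Key (E : Env) (R j : ℕ) : Prop where
  u0 : ∀ p, 0 ≤ E.gu j p
  h0 : ∀ p, 0 ≤ E.gh j p
  tau_cell : ∀ i k : ℕ, j ≤ i → k < nc E.δ i →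
    ∑ n ∈ E.cs R i k, E.tau j n ≤ E.w i + 3 * E.w i / 16
  mass_cell : ∀ i k : ℕ, j ≤ i → k < nc E.δ i → ∑ n ∈ E.cs R i k, E.mass j n ≤ 4 * E.w i
  inv_cell : ∀ i k : ℕ, j ≤ i → k < nc E.δ i → ∑ n ∈ E.cs R i k, 1 / (n : ℝ) ≤ E.w i / 16
  ns_cell : ∀ i k : ℕ, j ≤ i → k < nc E.δ i → ∑ n ∈ cn E R i k, (1 / (n : ℝ)) * E3 E j n ≤
    E.w i / 16

theorem key (E : Env) (hGB : E.GBounds) (hU : E.UPart) (hH : E.HPart) (hS : E.SPart)
    (hN : NSum E) : ∃ R₀ : ℕ, ∀ R : ℕ, R₀ ≤ R → ∃ J : ℕ, ∀ j : ℕ, J ≤ j → Key E R j := by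
  obtain ⟨J0, hJ0, hGB⟩ := hGB
  obtain ⟨R1, hU⟩ := hU
  obtain ⟨R2, hH⟩ := hH
  obtain ⟨J3, hS⟩ := hS
  obtain ⟨R3, hN⟩ := hN (1 / 16) (by norm_num)
  refine ⟨max (max R1 R2) R3, fun R hR => ?_⟩
  obtain ⟨J1, hU⟩ := hU R (((le_max_left _ _).trans (le_max_left _ _)).trans hR)
  obtain ⟨J2, hH⟩ := hH R (((le_max_right _ _).trans (le_max_left _ _)).trans hR)
  obtain ⟨J4, hN⟩ := hN R ((le_max_right _ _).trans hR)
  refine ⟨J0 + J1 + J2 + J3 + J4, fun j hj => ?_⟩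
  have hj0 : J0 ≤ j := by omega
  obtain ⟨_, hu0, hh0, _⟩ := hGB j hj0
  -- the three sums over a cell
  have hbig : ∀ i k : ℕ, j ≤ i → k < nc E.δ i →
      ∑ n ∈ E.cs R i k, E.big j i n ≤ E.w i + E.w i / 8 := by
    intro i k hi hk
    have a1 := hU j (by omega) i hi k hk
    have a2 := hH j (by omega) i hi k hk
    unfold big
    rw [sum_add_distrib]
    refine (add_le_add a1 a2).trans (le_of_eq ?_)
    split_ifs <;> ring
  have hsm : ∀ i k : ℕ, j ≤ i → k < nc E.δ i →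
      ∑ n ∈ E.cs R i k, (1 / (n : ℝ)) * ∏ p ∈ n.primeFactors, (1 + 2 * (p * E.gs j i p)) ≤
        E.w i / 16 := by
    intro i k hi hk
    refine le_trans (sum_le_sum_of_subset_of_nonneg ?_ ?_) (hS j (by omega) i hi k hk)
    · intro n hn
      unfold cs at hn
      rw [mem_filter] at hn ⊢
      exact ⟨hn.1, hn.2.1⟩
    · intro n _ _
      refine mul_nonneg (by positivity) (prod_nonneg fun p _ => ?_)
      have := mul_nonneg (Nat.cast_nonneg (α := ℝ) p) (E.gs_nonneg j i p (hu0 p) (hh0 p))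
      linarith
  have hsq : ∀ i k n : ℕ, n ∈ E.cs R i k → Squarefree n := fun i k n hn => by
    unfold cs at hn
    exact (mem_filter.1 hn).2.1
  refine ⟨hu0, hh0, ?_, ?_, ?_, ?_⟩
  · intro i k hi hk
    calc ∑ n ∈ E.cs R i k, E.tau j n
        ≤ ∑ n ∈ E.cs R i k, (E.big j i n +
            (1 / (n : ℝ)) * ∏ p ∈ n.primeFactors, (1 + 2 * (p * E.gs j i p))) :=
          sum_le_sum fun n hn => (E.point j i n hu0 hh0 (hsq i k n hn)).1
      _ ≤ (E.w i + E.w i / 8) + E.w i / 16 := by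
          rw [sum_add_distrib]
          exact add_le_add (hbig i k hi hk) (hsm i k hi hk)
      _ ≤ _ := by linarith
  · intro i k hi hk
    have hw := E.w_pos i (by omega)
    calc ∑ n ∈ E.cs R i k, E.mass j n
        ≤ ∑ n ∈ E.cs R i k, (2 * E.big j i n +
            (1 / (n : ℝ)) * ∏ p ∈ n.primeFactors, (1 + 2 * (p * E.gs j i p))) :=
          sum_le_sum fun n hn => (E.point j i n hu0 hh0 (hsq i k n hn)).2.1
      _ ≤ 2 * (E.w i + E.w i / 8) + E.w i / 16 := by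
          rw [sum_add_distrib, ← mul_sum]
          exact add_le_add (mul_le_mul_of_nonneg_left (hbig i k hi hk) (by norm_num))
            (hsm i k hi hk)
      _ ≤ _ := by linarith
  · intro i k hi hk
    calc ∑ n ∈ E.cs R i k, 1 / (n : ℝ)
        ≤ ∑ n ∈ E.cs R i k, (1 / (n : ℝ)) * ∏ p ∈ n.primeFactors, (1 + 2 * (p * E.gs j i p)) := by
          refine sum_le_sum fun n _ => ?_
          have h1 := one_le_prod1 n.primeFactors (fun p => 2 * (p * E.gs j i p)) fun p => by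
            have := mul_nonneg (Nat.cast_nonneg (α := ℝ) p) (E.gs_nonneg j i p (hu0 p) (hh0 p))
            linarith
          have h2 : (0 : ℝ) ≤ 1 / (n : ℝ) := by positivity
          nlinarith
      _ ≤ E.w i / 16 := hsm i k hi hk
  · intro i k hi hk
    have h := hN j (by omega) i hi k hk
    linarith

/-! ### the function -/

/-- the completely multiplicative function -/
noncomputable def fc (E : Env) (j : ℕ) (z : ℕ × ℕ → ℝ) (n : ℕ) : ℝ :=
  cm (fun p => E.gz j z p - 1 / (p : ℝ)) n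

lemma fc_squarefree (E : Env) (j : ℕ) (z : ℕ × ℕ → ℝ) {n : ℕ} (hn : Squarefree n) :
    fc E j z n = E.fz j z n := by
  unfold fc fz
  rw [cm_squarefree _ hn]

lemma fc_bound (E : Env) (j n : ℕ) (z z' : ℕ × ℕ → ℝ) (ε : ℝ) (hu : ∀ p, 0 ≤ E.gu j p)
    (hh : ∀ p, 0 ≤ E.gh j p)
    (hz : ∀ i, |z i| ≤ 1) (hz' : ∀ i, |z' i| ≤ 1)
    (hzz : ∀ i, |z i - z' i| ≤ ε) (hn : n ≠ 0) :
    |fc E j z n| ≤ (1 / (n : ℝ)) * E3 E j n ∧
    |fc E j z n - fc E j z' n| ≤ ε * ((1 / (n : ℝ)) * E3 E j n) := by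
  have hε : 0 ≤ ε := (abs_nonneg _).trans (hzz (0, 0))
  have h := cm_perturb (fun p => 1 / (p : ℝ)) (E.gz j z) (E.gz j z') (E.g j) ε
    (fun p => by positivity) hε
    (fun p => (E.gz_le j z 1 hz hu p).trans (le_of_eq (one_mul _)))
    (fun p => (E.gz_le j z' 1 hz' hu p).trans (le_of_eq (one_mul _)))
    (fun p => by rw [gz_sub]; exact E.gz_le j _ ε hzz hu p) hn
  have e1 : cm (fun p => 1 / (p : ℝ) + 2 * E.g j p) n = (1 / (n : ℝ)) * E3 E j n := by
    rw [cm_scale (fun p => 2 * E.g j p) hn]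
    unfold E3
    congr 1
    apply cm_congr hn
    intro p _ _
    ring
  refine ⟨?_, ?_⟩
  · refine h.1.trans ?_
    rw [← e1]
    apply cm_le
    intro p _
    have h1 := E.g_nonneg j p hu hh
    have h2 : (0 : ℝ) ≤ 1 / (p : ℝ) := by positivity
    exact ⟨by linarith, by linarith⟩
  · rw [← e1]
    exact h.2

lemma gz_zero (E : Env) (j : ℕ) (hu : ∀ p, 0 ≤ E.gu j p) (p : ℕ) : E.gz j 0 p = 0 := by
  have := E.gz_le j 0 0 (fun i => by simp) hu p
  rw [zero_mul] at this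
  exact abs_eq_zero.1 (le_antisymm this (abs_nonneg _))

lemma fc_zero (E : Env) (j n : ℕ) (hu : ∀ p, 0 ≤ E.gu j p) (hn : n ≠ 0) :
    |fc E j 0 n| = 1 / (n : ℝ) := by
  unfold fc
  rw [cm_abs, ← cm_inv hn]
  apply cm_congr hn
  intro p _ _
  rw [gz_zero E j hu p, zero_sub, abs_neg, abs_of_nonneg (by positivity)]

lemma one_le_E3 (E : Env) (j n : ℕ) (hu : ∀ p, 0 ≤ E.gu j p) (hh : ∀ p, 0 ≤ E.gh j p)
    (hn : n ≠ 0) : 1 ≤ E3 E j n := by
  unfold E3
  apply one_le_cm hn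
  intro p _ _
  have := E.g_nonneg j p hu hh
  have h2 : (0 : ℝ) ≤ (p : ℝ) * E.g j p := mul_nonneg (Nat.cast_nonneg p) this
  linarith

end Pool.Agent.Y946.CM
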