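import Pool.Agent.Y946.CM.UP
import Pool.Agent.W76.MO.Asm1

/-!
# Task NS: the total mass of the rough numbers which are not squarefree
-/

set_option autoImplicit false

namespace Pool.Agent.Y946.CM

open Finset Filter Topology
open scoped Classical
open Pool.Agent.W76.MO

lemma nc_mul' {δ : ℝ} (hδ : 0 < δ) (i : ℕ) : nc δ i * hh δ i = 2 ^ i :=
  Pool.Agent.W596.MO.nc_mul hδ i

lemma cell_bd {δ : ℝ} (hδ : 0 < δ) {i k n : ℕ} (hk : k < nc δ i) (hn : n ∈ cell δ i k) :
    2 ^ i < n ∧ n ≤ 2 ^ (i + 1) := by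
  unfold cell at hn
  rw [mem_Ioc] at hn
  have h1 := nc_mul' hδ i
  have h2 : (k + 1) * hh δ i ≤ nc δ i * hh δ i := Nat.mul_le_mul_right _ hk
  have h4 : 2 ^ (i + 1) = 2 * 2 ^ i := by ring
  omega

/-- multiplicities of large primes -/
lemma mult_le {i n p : ℕ} (hi : 1 ≤ i) (hn : n ≠ 0) (hn2 : n ≤ 2 ^ (i + 1))
    (hp : (2 : ℝ) ^ (1 / 20 * (i : ℝ)) < p) : n.factorization p ≤ 40 := by
  have h1 : p ^ (n.factorization p) ≤ n := Nat.le_of_dvd (Nat.pos_of_ne_zero hn) (Nat.ordProj_dvd n p)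
  have h2 : ((p : ℝ)) ^ (n.factorization p) ≤ (2 : ℝ) ^ (i + 1) := by
    exact_mod_cast h1.trans hn2
  by_contra hcon
  push Not at hcon
  have h3 : ((2 : ℝ) ^ (1 / 20 * (i : ℝ))) ^ (n.factorization p) ≤ (2 : ℝ) ^ (i + 1) :=
    (pow_le_pow_left₀ (by positivity) hp.le _).trans h2
  have h4 : ((2 : ℝ) ^ (1 / 20 * (i : ℝ))) ^ 41 ≤
      ((2 : ℝ) ^ (1 / 20 * (i : ℝ))) ^ (n.factorization p) := by
    apply pow_le_pow_right₀ _ hcon
    exact Real.one_le_rpow (by norm_num) (by positivity)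
  have h5 : ((2 : ℝ) ^ (1 / 20 * (i : ℝ))) ^ 41 = (2 : ℝ) ^ (41 / 20 * (i : ℝ)) := by
    rw [← Real.rpow_natCast, ← Real.rpow_mul (by norm_num)]
    congr 1
    push_cast
    ring
  have h6 : (2 : ℝ) ^ (i + 1) = (2 : ℝ) ^ ((i : ℝ) + 1) := by
    rw [← Real.rpow_natCast]; push_cast; rfl
  have h7 : (2 : ℝ) ^ (41 / 20 * (i : ℝ)) ≤ (2 : ℝ) ^ ((i : ℝ) + 1) := by
    rw [← h5, ← h6]; exact h4.trans h3
  have h8 := (Real.rpow_le_rpow_left_iff (by norm_num : (1 : ℝ) < 2)).1 h7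
  have h9 : (1 : ℝ) ≤ i := by exact_mod_cast hi
  linarith

theorem ns : T_NS := by
  intro E hGB hU hH hS η hη
  obtain ⟨J0, hJ0, hGB⟩ := hGB
  set η' : ℝ := η / 161 with hη'
  have hη0 : 0 < η' := by positivity
  obtain ⟨R1, hU⟩ := hU η' hη0
  obtain ⟨R2, hH⟩ := hH η' hη0
  obtain ⟨J3, hS⟩ := hS η' hη0
  refine ⟨max R1 R2, fun R hR => ?_⟩
  obtain ⟨J1, hU⟩ := hU R ((le_max_left _ _).trans hR)
  obtain ⟨J2, hH⟩ := hH R ((le_max_right _ _).trans hR)
  refine ⟨J0 + J1 + J2 + J3, fun j hj i hi k hk => ?_⟩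
  obtain ⟨_, hu0, hh0, _⟩ := hGB j (by omega)
  have a1 := hU j (by omega) i hi k hk
  have a2 := hH j (by omega) i hi k hk
  have a3 := hS j (by omega) i hi k hk
  have hi1 : 1 ≤ i := by omega
  have hgl := fun p => E.gl_nonneg j i p (hu0 p) (hh0 p)
  have hgs := fun p => E.gs_nonneg j i p (hu0 p) (hh0 p)
  have hmem : ∀ n ∈ cn E R i k, n ≠ 0 ∧ n ≤ 2 ^ (i + 1) := by
    intro n hn
    unfold cn at hn
    rw [mem_filter] at hn
    have := cell_bd E.hδ hk hn.1
    exact ⟨by omega, this.2⟩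
  have hfun : (fun p : ℕ => 1 + (2 * ((p : ℝ) * E.gl j i p) + 2 * ((p : ℝ) * E.gs j i p))) =
      fun p : ℕ => 1 + 2 * ((p : ℝ) * E.g j p) := by
    funext p
    rw [← E.gl_add_gs j i p]; ring
  -- pointwise
  have hpt : ∀ n ∈ cn E R i k, (1 / (n : ℝ)) * E3 E j n ≤
      80 * (∑ p ∈ n.primeFactors.filter (fun p : ℕ => (2 : ℝ) ^ (3 / 5 * (i : ℝ)) < p),
        E.gu j p * (E3 E j (n / p) / ((n / p : ℕ) : ℝ)) +
      ∑ q ∈ n.primeFactors.filter (fun q : ℕ => (2 : ℝ) ^ (1 / 20 * (i : ℝ)) < q),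
        E.gh j q * (E3 E j (n / q) / ((n / q : ℕ) : ℝ))) +
      (1 / (n : ℝ)) * cm (fun p => 1 + 2 * (p * E.gs j i p)) n := by
    intro n hn
    obtain ⟨hn0, hn2⟩ := hmem n hn
    have hnR : (0 : ℝ) < n := by exact_mod_cast Nat.pos_of_ne_zero hn0
    have h := cm_split' (fun p => 2 * ((p : ℝ) * E.gl j i p)) (fun p => 2 * ((p : ℝ) * E.gs j i p))
      (fun p => by have := hgl p; positivity) (fun p => by have := hgs p; positivity) hn0 40 (by
        intro p hp hpd hup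
        apply mult_le hi1 hn0 hn2
        by_contra hcon
        apply hup
        have h1 : ¬ (2 : ℝ) ^ (3 / 5 * (i : ℝ)) < p := by
          intro h2
          apply hcon
          refine lt_of_le_of_lt ?_ h2
          apply Real.rpow_le_rpow_of_exponent_le (by norm_num)
          have : (0 : ℝ) ≤ i := Nat.cast_nonneg i
          linarith
        unfold Env.gl
        rw [if_neg h1, if_neg hcon]
        simp)
    simp only [hfun] at h
    have h2 := mul_le_mul_of_nonneg_left h (show 0 ≤ 1 / (n : ℝ) by positivity)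
    have e1 : E3 E j n = cm (fun p : ℕ => 1 + 2 * ((p : ℝ) * E.g j p)) n := rfl
    rw [← e1] at h2
    refine h2.trans (le_of_eq ?_)
    rw [mul_add]
    congr 1
    rw [sum_filter, sum_filter, ← sum_add_distrib, mul_sum, mul_sum, mul_sum]
    refine sum_congr rfl fun p hp => ?_
    have hpp := Nat.prime_of_mem_primeFactors hp
    have hp0 : (p : ℝ) ≠ 0 := by exact_mod_cast hpp.ne_zero
    rw [cast_div_prime n p hp]
    have e2 : E3 E j (n / p) = cm (fun p : ℕ => 1 + 2 * ((p : ℝ) * E.g j p)) (n / p) := rfl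
    rw [← e2]
    set X := E3 E j (n / p) with hX
    have h3 : ∀ c : ℝ, 1 / (n : ℝ) * (((40 : ℕ) : ℝ) * (2 * ((p : ℝ) * c) * X)) =
        80 * (c * (X / ((n : ℝ) / p))) := by
      intro c
      push_cast
      field_simp
      ring
    rw [h3]
    unfold Env.gl
    by_cases k1 : (2 : ℝ) ^ (3 / 5 * (i : ℝ)) < p
    · by_cases k2 : (2 : ℝ) ^ (1 / 20 * (i : ℝ)) < p
      · simp only [if_pos k1, if_pos k2]
        ring
      · simp only [if_pos k1, if_neg k2]
        ring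
    · by_cases k2 : (2 : ℝ) ^ (1 / 20 * (i : ℝ)) < p
      · simp only [if_neg k1, if_pos k2]
        ring
      · simp only [if_neg k1, if_neg k2]
        ring
  have hsub : ∑ n ∈ cn E R i k, (1 / (n : ℝ)) * cm (fun p => 1 + 2 * (p * E.gs j i p)) n ≤
      η' * E.w i := by
    refine le_trans ?_ a3
    apply sum_le_sum_of_subset_of_nonneg
    · intro n hn
      unfold cn at hn
      exact (mem_filter.1 hn).1
    · intro n _ _
      apply mul_nonneg (by positivity)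
      apply cm_nonneg
      intro p _
      have := hgs p
      positivity
  refine (sum_le_sum hpt).trans ?_
  rw [sum_add_distrib, ← mul_sum, sum_add_distrib]
  have hw : η * E.w i = 161 * (η' * E.w i) := by rw [hη']; ring
  linarith

end Pool.Agent.Y946.CM
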