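import Pool.Agent.Y946.CM.First
import Pool.Agent.W76.MO.Asm5

/-!
# Solution of the system
-/

set_option autoImplicit false

namespace Pool.Agent.Y946.CM

open Finset
open scoped Classical
open Pool.Agent.W76.MO Pool.Agent.W76.MO.Env

/-- rough numbers up to `2^j` -/
noncomputable def A1 (R j : ℕ) : Finset ℕ := (Icc 1 (2 ^ j)).filter (fun n => Rough R n)

/-- rough elements of a cell -/
noncomputable def cr (E : Env) (R i k : ℕ) : Finset ℕ := (cell E.δ i k).filter (fun n => Rough R n)

lemma sum_A1 (R j : ℕ) (F : ℕ → ℝ) : ∑ n ∈ A1 R j, F n = ∑ n ∈ A0 R j, F n +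
    ∑ n ∈ (Icc 1 (2 ^ j)).filter (fun n => ¬ Squarefree n ∧ Rough R n), F n := by
  unfold A1 A0
  rw [← sum_filter_add_sum_filter_not ((Icc 1 (2 ^ j)).filter (fun n => Rough R n)) Squarefree,
    filter_filter, filter_filter]
  congr 1
  · apply sum_congr _ fun _ _ => rfl
    apply filter_congr
    intro n _
    tauto
  · apply sum_congr _ fun _ _ => rfl
    apply filter_congr
    intro n _
    tauto

lemma sum_cr (E : Env) (R i k : ℕ) (F : ℕ → ℝ) : ∑ n ∈ cr E R i k, F n = ∑ n ∈ E.cs R i k, F n +
    ∑ n ∈ cn E R i k, F n := by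
  unfold cr cs cn
  rw [← sum_filter_add_sum_filter_not ((cell E.δ i k).filter (fun n => Rough R n)) Squarefree,
    filter_filter, filter_filter]
  congr 1
  · apply sum_congr _ fun _ _ => rfl
    apply filter_congr
    intro n _
    tauto
  · apply sum_congr _ fun _ _ => rfl
    apply filter_congr
    intro n _
    tauto

theorem system (E : Env) (hGB : E.GBounds) (hHC : E.HCount)
    (hKey : ∃ R₀ : ℕ, ∀ R : ℕ, R₀ ≤ R → ∃ J : ℕ, ∀ j : ℕ, J ≤ j → Key E R j) :
    ∃ (R j : ℕ) (z : ℕ × ℕ → ℝ), (∀ x, |z x| ≤ 1) ∧ 2 ≤ R ∧ 10 ≤ j ∧ Key E R j ∧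
      ∑ n ∈ A1 R j, fc E j z n = 0 ∧
      ∀ i k : ℕ, j ≤ i → k < nc E.δ i → ∑ n ∈ cr E R i k, fc E j z n = 0 := by
  obtain ⟨R₀, hKey⟩ := hKey
  set R := max R₀ 2 with hR
  obtain ⟨J1, hKey⟩ := hKey R (le_max_left _ _)
  obtain ⟨J2, hJ2, hfirst⟩ := tau_first E hGB R
  obtain ⟨J3, hHC⟩ := hHC
  obtain ⟨J4, hJ4⟩ := ge_of_rpow_ge E.τ E.hτ R
  obtain ⟨J5, hJ5, hGB⟩ := hGB
  set j := J1 + J2 + J3 + J4 + J5 + R + 10 with hj
  have hKj := hKey j (by omega)
  obtain ⟨hUBne, hUBp, htau1⟩ := hfirst j (by omega)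
  obtain ⟨hUB, hu0, hh0, hgu, hgh, hguU, hghq, hsum1, hsum2⟩ := hGB j (by omega)
  have hlarge := pert_large E j (by omega) hgu hghq
  have hj1 : 1 ≤ j := by omega
  have hjr : (1 : ℝ) ≤ j := by exact_mod_cast hj1
  have hjr10 : (10 : ℝ) ≤ j := by exact_mod_cast (by omega : 10 ≤ j)
  have hRj : R ≤ 2 ^ (j - 1) := by
    have h1 : R ≤ j - 1 := by omega
    exact h1.trans (Nat.lt_two_pow_self).le
  -- the system
  let F : (ℕ × ℕ → ℝ) → ℕ × ℕ → ℝ := fun z x =>
    if x = (j - 1, 0) then ∑ n ∈ A1 R j, fc E j z n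
    else if j ≤ x.1 ∧ x.2 < nc E.δ x.1 then ∑ n ∈ cr E R x.1 x.2, fc E j z n
    else z x
  let W : ℕ × ℕ → ℝ := fun x =>
    if x = (j - 1, 0) then 8 * j else if j ≤ x.1 ∧ x.2 < nc E.δ x.1 then E.w x.1 else 1
  have hW : ∀ x, 0 < W x := by
    intro x
    simp only [W]
    split_ifs with h1 h2
    · positivity
    · exact E.w_pos _ (hj1.trans h2.1)
    · norm_num
  have hA0sq : ∀ n ∈ A0 R j, Squarefree n := fun n hn => by
    unfold A0 at hn
    exact (mem_filter.1 hn).2.1
  have hcssq : ∀ i k n, n ∈ E.cs R i k → Squarefree n := fun i k n hn => by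
    unfold cs at hn
    exact (mem_filter.1 hn).2.1
  have hcn0 : ∀ i k n, k < nc E.δ i → n ∈ cn E R i k → n ≠ 0 := fun i k n hk hn => by
    unfold cn at hn
    have := cell_bd E.hδ hk (mem_filter.1 hn).1
    omega
  obtain ⟨z, hz1, hz0⟩ := solve F W hW (by
    intro x
    simp only [F, W]
    split_ifs with h1 h2
    · calc |∑ n ∈ A1 R j, fc E j 0 n| ≤ ∑ n ∈ A1 R j, |fc E j 0 n| := abs_sum_le_sum_abs _ _
        _ = ∑ n ∈ A1 R j, 1 / (n : ℝ) := sum_congr rfl fun n hn => by
            unfold A1 at hn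
            rw [mem_filter, mem_Icc] at hn
            exact fc_zero E j n hu0 (by omega)
        _ ≤ ∑ n ∈ Icc (1 : ℕ) (2 ^ j), 1 / (n : ℝ) := by
            apply sum_le_sum_of_subset_of_nonneg (filter_subset _ _)
            intro n _ _
            positivity
        _ ≤ 1 + j := harm_le j
        _ ≤ 8 * j / 4 := by linarith
    · have hw := E.w_pos x.1 (hj1.trans h2.1)
      rw [sum_cr]
      refine (abs_add_le _ _).trans ?_
      have t1 : |∑ n ∈ E.cs R x.1 x.2, fc E j 0 n| ≤ E.w x.1 / 16 := by
        calc |∑ n ∈ E.cs R x.1 x.2, fc E j 0 n| ≤ ∑ n ∈ E.cs R x.1 x.2, |fc E j 0 n| :=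
            abs_sum_le_sum_abs _ _
        _ = ∑ n ∈ E.cs R x.1 x.2, 1 / (n : ℝ) :=
            sum_congr rfl fun n hn => fc_zero E j n hu0 (hcssq _ _ n hn).ne_zero
        _ ≤ E.w x.1 / 16 := hKj.inv_cell x.1 x.2 h2.1 h2.2
      have t2 : |∑ n ∈ cn E R x.1 x.2, fc E j 0 n| ≤ E.w x.1 / 16 := by
        calc |∑ n ∈ cn E R x.1 x.2, fc E j 0 n| ≤ ∑ n ∈ cn E R x.1 x.2, |fc E j 0 n| :=
            abs_sum_le_sum_abs _ _
        _ ≤ ∑ n ∈ cn E R x.1 x.2, (1 / (n : ℝ)) * E3 E j n := by
            refine sum_le_sum fun n hn => ?_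
            have hn0 := hcn0 _ _ n h2.2 hn
            rw [fc_zero E j n hu0 hn0]
            have h3 := one_le_E3 E j n hu0 hh0 hn0
            have h4 : (0 : ℝ) ≤ 1 / (n : ℝ) := by positivity
            nlinarith
        _ ≤ E.w x.1 / 16 := hKj.ns_cell x.1 x.2 h2.1 h2.2
      linarith
    · simp) (by
    intro z z' ε hz hz' hzz x
    have hε : 0 ≤ ε := (abs_nonneg _).trans (hzz (0, 0))
    simp only [F, W]
    split_ifs with h1 h2
    · -- the first block
      subst h1
      have hsub : E.UB j ⊆ A0 R j := by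
        intro p hp
        have hpp := hUBp p hp
        unfold UB at hp
        rw [mem_filter, mem_Ioc] at hp
        unfold A0
        rw [mem_filter, mem_Icc]
        refine ⟨⟨hpp.one_le, hp.1.2⟩, hpp.squarefree, ?_⟩
        intro q hq hqp
        have : q = p := (Nat.prime_dvd_prime_iff_eq hq hpp).1 hqp
        subst this
        have : R ≤ q := by omega
        exact_mod_cast this
      have h := lip_sum (A0 R j) (E.UB j) hsub hUBne (E.fz j z) (E.fz j z') (E.tau j) ε (8 * j)
        (z (j - 1, 0) - z' (j - 1, 0))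
        (fun n hn _ => (E.fz_bound j n z z' ε hu0 hz hz' hzz (hA0sq n hn)).2)
        (fun p hp => E.prime_lip j p (hUBp p hp) z z' (j - 1, 0) _ ε
          (fun y => (E.gz_first j y (fun q hq => (hgh q hq).2.1) p hp).1)
          (E.gz_first j z (fun q hq => (hgh q hq).2.1) p hp).2)
      set N0 := (Icc 1 (2 ^ j)).filter (fun n => ¬ Squarefree n ∧ Rough R n) with hN0
      have h' : |∑ n ∈ N0, fc E j z n - ∑ n ∈ N0, fc E j z' n| ≤ ε * 2 := by
        rw [← sum_sub_distrib]
        refine (abs_sum_le_sum_abs _ _).trans ?_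
        refine (sum_le_sum (g := fun n : ℕ => ε * ∑ q ∈ n.primeFactors,
          E.gh j q * (1 / ((n / q : ℕ) : ℝ))) fun n hn => ?_).trans ?_
        · rw [hN0, mem_filter, mem_Icc] at hn
          exact ns_first E j (by omega) hu0 hh0 hgu hlarge z z' ε hz hz' hzz n hn.1.1 hn.1.2 hn.2.1
        · rw [← mul_sum]
          apply mul_le_mul_of_nonneg_left _ hε
          exact sum_gh_first E j hj1 hh0 hsum1 N0 (filter_subset _ _)
      rw [sum_A1, sum_A1, ← hN0,
        sum_congr rfl (fun n hn => fc_squarefree E j z (hA0sq n hn)),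
        sum_congr rfl (fun n hn => fc_squarefree E j z' (hA0sq n hn))]
      have e1 : ∑ n ∈ A0 R j, E.fz j z n + ∑ n ∈ N0, fc E j z n -
          (∑ n ∈ A0 R j, E.fz j z' n + ∑ n ∈ N0, fc E j z' n) -
          8 * (j : ℝ) * (z (j - 1, 0) - z' (j - 1, 0)) =
          (∑ n ∈ A0 R j, E.fz j z n - ∑ n ∈ A0 R j, E.fz j z' n -
            8 * (j : ℝ) * (z (j - 1, 0) - z' (j - 1, 0))) +
          (∑ n ∈ N0, fc E j z n - ∑ n ∈ N0, fc E j z' n) := by ring
      rw [e1]
      refine (abs_add_le _ _).trans ((add_le_add h h').trans ?_)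
      rw [← mul_add]
      refine mul_le_mul_of_nonneg_left ?_ hε
      linarith
    · -- a cell
      obtain ⟨i, k⟩ := x
      simp only at h2 ⊢
      obtain ⟨hji, hk⟩ := h2
      have htau := hKj.tau_cell i k hji hk
      have hi1 : 1 ≤ i := hj1.trans hji
      have hir : (0 : ℝ) < i := by exact_mod_cast hi1
      have hhpos : (0 : ℝ) < hh E.δ i := by exact_mod_cast hh_pos E.δ i
      have hRi : R ≤ 2 ^ i := by
        refine hRj.trans (Nat.pow_le_pow_right (by norm_num) (by omega))
      have h' : |∑ n ∈ cn E R i k, fc E j z n - ∑ n ∈ cn E R i k, fc E j z' n| ≤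
          ε * (E.w i / 16) := by
        rw [← sum_sub_distrib]
        refine (abs_sum_le_sum_abs _ _).trans ?_
        refine (sum_le_sum (g := fun n : ℕ => ε * ((1 / (n : ℝ)) * E3 E j n)) fun n hn => ?_).trans ?_
        · exact (fc_bound E j n z z' ε hu0 hh0 hz hz' hzz (hcn0 i k n hk hn)).2
        · rw [← mul_sum]
          exact mul_le_mul_of_nonneg_left (hKj.ns_cell i k hji hk) hε
      rw [sum_cr, sum_cr,
        sum_congr rfl (fun n hn => fc_squarefree E j z (hcssq i k n hn)),
        sum_congr rfl (fun n hn => fc_squarefree E j z' (hcssq i k n hn))]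
      have e1 : ∑ n ∈ E.cs R i k, E.fz j z n + ∑ n ∈ cn E R i k, fc E j z n -
          (∑ n ∈ E.cs R i k, E.fz j z' n + ∑ n ∈ cn E R i k, fc E j z' n) -
          E.w i * (z (i, k) - z' (i, k)) =
          (∑ n ∈ E.cs R i k, E.fz j z n - ∑ n ∈ E.cs R i k, E.fz j z' n -
            E.w i * (z (i, k) - z' (i, k))) +
          (∑ n ∈ cn E R i k, fc E j z n - ∑ n ∈ cn E R i k, fc E j z' n) := by ring
      rw [e1]
      refine (abs_add_le _ _).trans ?_
      have hmain : |∑ n ∈ E.cs R i k, E.fz j z n - ∑ n ∈ E.cs R i k, E.fz j z' n -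
            E.w i * (z (i, k) - z' (i, k))| ≤ ε * (3 * E.w i / 16) := by
        by_cases hkb : k ∈ E.Bad i
        · -- bad cell
          have hne : (E.Host j i k).Nonempty := by
            rw [← Finset.card_pos]
            have h3 := hHC j (by omega) i hji k hkb
            have h4 : 0 < E.cH / 2 * hh E.δ i / i := by
              have := E.hcH
              positivity
            exact_mod_cast h4.trans_le h3
          have hsub : E.Host j i k ⊆ E.cs R i k := by
            intro n hn
            unfold Host at hn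
            rw [mem_filter] at hn
            unfold cs
            rw [mem_filter]
            refine ⟨hn.1, hn.2.2.2.1, ?_⟩
            intro p hp hpn
            exact (hJ4 i (by omega)).trans (hn.2.2.2.2.1 p hp hpn)
          have h := lip_sum (E.cs R i k) (E.Host j i k) hsub hne (E.fz j z) (E.fz j z') (E.tau j) ε
            (E.w i) (z (i, k) - z' (i, k))
            (fun n hn _ => (E.fz_bound j n z z' ε hu0 hz hz' hzz (hcssq _ _ n hn)).2)
            (fun n hn => E.host_lip j z z' ε hu0 hgu (fun q hq => (hgh q hq).1) hz hz' hzz i k n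
              hji hkb hn)
          refine h.trans (mul_le_mul_of_nonneg_left ?_ hε)
          linarith
        · -- good cell
          have hcard : 0 < (((cell E.δ i k).filter E.isU).card : ℝ) := by
            have h3 : ¬ ((((cell E.δ i k).filter E.isU).card : ℝ) <
                E.cU * hh E.δ i / (i : ℝ) ^ 4) := by
              intro h3
              apply hkb
              unfold Bad
              rw [mem_filter, mem_range]
              exact ⟨hk, h3⟩
            rw [not_lt] at h3
            have := E.hcU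
            exact lt_of_lt_of_le (by positivity) h3
          have hne : ((cell E.δ i k).filter E.isU).Nonempty := by
            rw [← Finset.card_pos]
            exact_mod_cast hcard
          have hpr : ∀ p ∈ (cell E.δ i k).filter E.isU, p.Prime := fun p hp =>
            E.u_prime p (mem_filter.1 hp).2
          have hsub : (cell E.δ i k).filter E.isU ⊆ E.cs R i k := by
            intro p hp
            have hpp := hpr p hp
            rw [mem_filter] at hp
            unfold cs
            rw [mem_filter]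
            refine ⟨hp.1, hpp.squarefree, ?_⟩
            intro q hq hqp
            have : q = p := (Nat.prime_dvd_prime_iff_eq hq hpp).1 hqp
            subst this
            have h4 := (cell_loc E.δ E.hδ i k q hk hp.1).1
            have : R ≤ q := by omega
            exact_mod_cast this
          have h := lip_sum (E.cs R i k) ((cell E.δ i k).filter E.isU) hsub hne (E.fz j z)
            (E.fz j z') (E.tau j) ε (E.w i) (z (i, k) - z' (i, k))
            (fun n hn _ => (E.fz_bound j n z z' ε hu0 hz hz' hzz (hcssq _ _ n hn)).2)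
            (fun p hp => by
              have hp' := mem_filter.1 hp
              exact E.prime_lip j p (hpr p hp) z z' (i, k) _ ε
                (fun y => (E.gz_good j y (fun q hq => (hgh q hq).2.1) hh0 i k p hji hk hkb hp'.1
                  hp'.2).1)
                (E.gz_good j z (fun q hq => (hgh q hq).2.1) hh0 i k p hji hk hkb hp'.1 hp'.2).2)
          refine h.trans (mul_le_mul_of_nonneg_left ?_ hε)
          linarith
      refine (add_le_add hmain h').trans (le_of_eq ?_)
      ring
    · simp only [one_mul, sub_self, abs_zero]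
      positivity)
  refine ⟨R, j, z, hz1, le_max_right _ _, by omega, hKj, ?_, ?_⟩
  · have h := hz0 (j - 1, 0)
    simp only [F] at h
    simpa using h
  · intro i k hi hk
    have h := hz0 (i, k)
    simp only [F] at h
    have hne : ¬ ((i, k) : ℕ × ℕ) = (j - 1, 0) := by
      intro h1
      have : i = j - 1 := (Prod.ext_iff.1 h1).1
      omega
    rw [if_neg hne, if_pos ⟨hi, hk⟩] at h
    exact h

end Pool.Agent.Y946.CM
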