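import Pool.Agent.W76.MO.Stmts

/-!
# Finitely many exceptional zeros: statements
-/

set_option autoImplicit false

namespace Pool.Agent.Y946.CM

open Finset Filter Topology
open scoped Classical
open Pool.Agent.W76.MO

/-- only finitely many zeros of `ζ` have real part `> θ` -/
def FinEx (θ : ℝ) : Prop := {s : ℂ | riemannZeta s = 0 ∧ θ < s.re}.Finite

/-- the properties of `A(s) = -ζ'/ζ(s) - 1/(s-1) + ∑_{ρ ∈ Z} 1/(s-ρ)` which are used; `Z` is the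
multiset of the zeros with real part `> θ` -/
structure IsA2 (θ : ℝ) (Z : Multiset ℂ) (A : ℂ → ℂ) : Prop where
  zre : ∀ ρ ∈ Z, ρ.re < 1
  diff : DifferentiableOn ℂ A {s : ℂ | θ < s.re}
  eq : ∀ s : ℂ, 1 < s.re →
    A s = LSeries (fun n => (ArithmeticFunction.vonMangoldt n : ℂ)) s - 1 / (s - 1) +
      (Z.map (fun ρ => 1 / (s - ρ))).sum
  bound : ∀ σ₀ : ℝ, θ < σ₀ → ∃ C : ℝ, 0 < C ∧ ∀ s : ℂ, σ₀ ≤ s.re → s.re ≤ 2 →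
    ‖A s‖ ≤ C * Real.log (|s.im| + 3)

/-- (ZA2) -/
def ZA2 : Prop := ∀ θ : ℝ, 1 / 2 ≤ θ → θ < 1 → FinEx θ →
  ∃ (Z : Multiset ℂ) (A : ℂ → ℂ), IsA2 θ Z A

/-- the term of a zero -/
noncomputable def MR (ρ : ℂ) (η y : ℝ) : ℂ :=
  ∫ x in Set.Ioi (1 : ℝ), (x : ℂ) ^ (ρ - 1) *
    ((Real.exp (-(Real.log x - Real.log y) ^ 2 / (2 * η ^ 2)) : ℝ) : ℂ)

/-- (GI2) -/
def GI2 : Prop := ∀ (θ : ℝ) (Z : Multiset ℂ) (A : ℂ → ℂ), 1 / 2 ≤ θ → IsA2 θ Z A →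
  ∀ σ₀ η y : ℝ, θ < σ₀ → σ₀ < 1 → 0 < η → η ≤ 1 → 1 ≤ y →
    ((DG η y - MG η y : ℝ) : ℂ) + (Z.map (fun ρ => MR ρ η y)).sum =
      ((η / Real.sqrt (2 * Real.pi) : ℝ) : ℂ) *
      ∫ t : ℝ, A ((σ₀ : ℂ) + t * Complex.I) *
        Complex.exp ((η : ℂ) ^ 2 / 2 * ((σ₀ : ℂ) + t * Complex.I) ^ 2 +
          ((σ₀ : ℂ) + t * Complex.I) * Real.log y)

/-- (MB2) the terms of the zeros are small -/
def MB2 : Prop := ∀ (ρ : ℂ), ρ.re < 1 → ∃ C ε : ℝ, 0 < C ∧ 0 < ε ∧ ∀ η y : ℝ, 0 < η → η ≤ 1 →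
  1 ≤ y → ‖MR ρ η y‖ ≤ C * (η * y) * y ^ (-ε)

/-- (BC2) the number of well spaced points where the Gaussian sum is far from its main term -/
def BC2 : Prop := ∀ (θ : ℝ) (Z : Multiset ℂ) (A : ℂ → ℂ), 1 / 2 ≤ θ → IsA2 θ Z A →
  ∀ σ₀ c : ℝ, θ < σ₀ → σ₀ < 1 → 0 < c →
  ∃ C : ℝ, 0 < C ∧ ∀ X η : ℝ, 2 ≤ X → 1 / X ≤ η → η ≤ 1 → ∀ Y : Finset ℝ,
    (∀ y ∈ Y, X ≤ y ∧ y ≤ 2 * X) → (∀ y ∈ Y, ∀ y' ∈ Y, y ≠ y' → η * X ≤ |y - y'|) →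
    (∀ y ∈ Y, c * (η * X) ≤ |DG η y - MG η y|) →
      (Y.card : ℝ) ≤ C * (Real.log X) ^ 2 * X ^ (2 * σ₀ - 2) / η ^ 2

/-- (FB2) few cells with few primes -/
def FB2 : Prop := ∀ θ : ℝ, 1 / 2 ≤ θ → θ < 1 → FinEx θ → ∃ c : ℝ, 0 < c ∧
  ∀ δ ε : ℝ, 0 < δ → δ < 1 / 4 → 0 < ε →
  ∃ i₀ : ℕ, 1 ≤ i₀ ∧ ∀ i : ℕ, i₀ ≤ i →
    (((range (nc δ i)).filter (fun k =>
      (((cell δ i k).filter Nat.Prime).card : ℝ) < c * hh δ i / i)).card : ℝ) ≤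
        (2 : ℝ) ^ ((2 * θ - 1 + 2 * δ + ε) * i)

/-! ### the tasks -/

/-- task X-ZA -/
def TX_ZA : Prop := ZA2
/-- task X-GI -/
def TX_GI : Prop := GI2
/-- task X-MB -/
def TX_MB : Prop := MB2
/-- task X-BC -/
def TX_BC : Prop := GI2 → MB2 → BC2
/-- task X-FB -/
def TX_FB : Prop := ZA2 → BC2 → CellLow → FB2

end Pool.Agent.Y946.CM
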